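import Mathlib

/-! Surjections whose kernel is a product of symmetric groups: definition. -/

set_option autoImplicit false

namespace DC83

/-- The kernel of the surjection `q : G → A` is the product of the symmetric groups of the fibres of a
map `p : J → I` of finite sets: `G` acts on `J`, `A` acts on `I`, `p` is equivariant, and every
permutation of `J` which preserves the fibres of `p` is given by exactly one element of the kernel
of `q`. -/
structure SymKer {G A : Type} [Group G] [Group A] (q : G →* A) {J I : Type} [MulAction G J]
    [MulAction A I] (p : J → I) : Prop where
  equiv : ∀ g j, p (g • j) = q g • p j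
  onto : ∀ σ : Equiv.Perm J, (∀ j, p (σ j) = p j) → ∃ g : G, q g = 1 ∧ ∀ j, g • j = σ j
  inj : ∀ g : G, q g = 1 → (∀ j : J, g • j = j) → g = 1

end DC83
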