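import Pool.Agent.H.MP_83e36b_nt.sp.CRoot
import Pool.Agent.H.MP_83e36b_nt.sp.PDefs

/-! Polynomials without common roots stay so after a small change of the coefficients. -/

set_option autoImplicit false

open Polynomial Matrix Topology SpinWA

namespace DC83

private theorem NonV_smul {K Ω : Type} [Field K] [Field Ω] (φ : K →+* Ω) {n : ℕ} (c : K)
    (M : Matrix (Fin n) (Fin n) K) : φ.mapMatrix (c • M) = φ c • φ.mapMatrix M := by
  ext i j
  simp only [RingHom.mapMatrix_apply, Matrix.map_apply, Matrix.smul_apply, smul_eq_mul, map_mul]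

private theorem NonV_pow {Ω : Type} [Field Ω] {n : ℕ} (V A : Matrix (Fin n) (Fin n) Ω)
    (d : Fin n → Ω) (h : V * A = diagonal d * V) (k : ℕ) :
    V * A ^ k = diagonal (fun i => d i ^ k) * V := by
  induction k with
  | zero =>
    rw [pow_zero, mul_one]
    ext i j
    rw [diagonal_mul, pow_zero, one_mul]
  | succ k ih =>
    rw [pow_succ, ← mul_assoc, ih, mul_assoc, h, ← mul_assoc, diagonal_mul_diagonal]
    congr 2
    funext i
    rw [pow_succ]

private theorem NonV_sum {K Ω : Type} [Field K] [Field Ω] (φ : K →+* Ω) {n N : ℕ}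
    (V : Matrix (Fin n) (Fin n) Ω) (A : Matrix (Fin n) (Fin n) K) (d : Fin n → Ω)
    (h : V * φ.mapMatrix A = diagonal d * V) (r : Fin N → K) :
    V * φ.mapMatrix (∑ j, r j • A ^ (j : ℕ)) =
      diagonal (fun i => ∑ j, φ (r j) * d i ^ (j : ℕ)) * V := by
  rw [map_sum, Finset.mul_sum]
  ext i k
  rw [Matrix.sum_apply, diagonal_mul, Finset.sum_mul]
  refine Finset.sum_congr rfl fun j _ => ?_
  rw [NonV_smul, map_pow, mul_smul_comm, NonV_pow V _ d h, Matrix.smul_apply, diagonal_mul,
    smul_eq_mul, mul_assoc]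

private theorem NonV_cmp {K Ω : Type} [Field K] [Field Ω] (φ : K →+* Ω) {n : ℕ} (a : Fin n → K)
    (x : Fin n → Ω) (hx : AnWA.monicPoly (fun i => φ (a i)) = ∏ i, (X - C (x i))) :
    vandermonde x * φ.mapMatrix (cmp a) = diagonal x * vandermonde x := by
  rw [RingHom.mapMatrix_apply, croot_cmp_map, vand_cmp x _ hx]

private theorem NonV_aeval {K Ω : Type} [Field K] [Field Ω] [Algebra K Ω] {n : ℕ} (a : Fin n → K)
    (x : Fin n → Ω) (hx : AnWA.monicPoly (fun i => algebraMap K Ω (a i)) = ∏ i, (X - C (x i)))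
    (P : K[X]) :
    vandermonde x * (algebraMap K Ω).mapMatrix (aeval (cmp a) P) =
      diagonal (fun i => aeval (x i) P) * vandermonde x := by
  induction P using Polynomial.induction_on' with
  | add p q hp hq =>
    rw [map_add, map_add, mul_add, hp, hq]
    ext i j
    simp only [Matrix.add_apply, diagonal_mul, map_add]
    ring
  | monomial k d =>
    have h1 : aeval (cmp a) (monomial k d) = d • (cmp a) ^ k := by
      rw [aeval_monomial, ← Algebra.smul_def]
    rw [h1, NonV_smul, map_pow, mul_smul_comm, NonV_pow _ _ x (NonV_cmp (algebraMap K Ω) a x hx) k]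
    ext i j
    rw [Matrix.smul_apply, diagonal_mul, diagonal_mul, aeval_monomial, smul_eq_mul, mul_assoc]

private theorem NonV_det {Ω : Type} [Field Ω] {n : ℕ} (V A : Matrix (Fin n) (Fin n) Ω)
    (d : Fin n → Ω) (hV : V.det ≠ 0) (h : V * A = diagonal d * V) : A.det = ∏ i, d i := by
  have h1 := congrArg Matrix.det h
  rw [det_mul, det_mul, det_diagonal, mul_comm] at h1
  exact mul_right_cancel₀ hV h1

/-- Proof: let `M(q)` be the matrix `∑ j, q.1 j • Θ ^ j - ∑ j, q.2.2 j • (aeval (cmp a) P) ^ j`,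
`Θ = ∑ l, q.2.1 l • cmp a ^ l`; it depends continuously on `q`.  `vandermonde x * φ(M(q)) =
diagonal (u q) * vandermonde x`, `u q i` the difference of the two sides of the inequality
(`croot_vand_pow`; see `Kr_theta`, `Kr_pow`, `Kr_aeval` in dc/Kr.lean); `det (vandermonde x) ≠ 0`, so
`φ (det M(q)) = ∏ i, u q i`.  `det M` is not zero at the given point, so it is not zero near it. -/
theorem nonvan {K : Type} [NontriviallyNormedField K] {n : ℕ} (a : Fin n → K) {Ω : Type}
    [Field Ω] [Algebra K Ω] (x : Fin n → Ω) (hx : Function.Injective x)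
    (hax : AnWA.monicPoly (fun i => algebraMap K Ω (a i)) = ∏ i, (X - C (x i))) {N N' : ℕ}
    (r : Fin N → K) (c : Fin n → K) (e : Fin N' → K) (P : K[X])
    (h : ∀ i, ∑ j, algebraMap K Ω (r j) * (∑ l, algebraMap K Ω (c l) * x i ^ (l : ℕ)) ^ (j : ℕ) ≠
      ∑ j, algebraMap K Ω (e j) * (aeval (x i) P) ^ (j : ℕ)) :
    ∀ᶠ q : (Fin N → K) × (Fin n → K) × (Fin N' → K) in 𝓝 (r, c, e), ∀ i,
      ∑ j, algebraMap K Ω (q.1 j) *
          (∑ l, algebraMap K Ω (q.2.1 l) * x i ^ (l : ℕ)) ^ (j : ℕ) ≠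
        ∑ j, algebraMap K Ω (q.2.2 j) * (aeval (x i) P) ^ (j : ℕ) := by
  obtain ⟨M, hM⟩ : ∃ M : (Fin N → K) × (Fin n → K) × (Fin N' → K) → Matrix (Fin n) (Fin n) K,
      M = fun q => ∑ j : Fin N, q.1 j • (∑ l : Fin n, q.2.1 l • cmp a ^ (l : ℕ)) ^ (j : ℕ) -
        ∑ j : Fin N', q.2.2 j • (aeval (cmp a) P) ^ (j : ℕ) := ⟨_, rfl⟩
  have hcont : Continuous M := by
    rw [hM]
    refine Continuous.sub ?_ ?_
    · refine continuous_finsetSum _ fun j _ => ?_
      refine Continuous.smul ((continuous_apply j).comp continuous_fst) ?_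
      refine Continuous.pow ?_ _
      refine continuous_finsetSum _ fun l _ => ?_
      exact Continuous.smul ((continuous_apply l).comp (continuous_fst.comp continuous_snd))
        continuous_const
    · refine continuous_finsetSum _ fun j _ => ?_
      exact Continuous.smul ((continuous_apply j).comp (continuous_snd.comp continuous_snd))
        continuous_const
  have hdet : ∀ q : (Fin N → K) × (Fin n → K) × (Fin N' → K), algebraMap K Ω (M q).det =
      ∏ i, (∑ j, algebraMap K Ω (q.1 j) *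
          (∑ l, algebraMap K Ω (q.2.1 l) * x i ^ (l : ℕ)) ^ (j : ℕ) -
        ∑ j, algebraMap K Ω (q.2.2 j) * (aeval (x i) P) ^ (j : ℕ)) := by
    intro q
    rw [RingHom.map_det]
    refine NonV_det (vandermonde x) _ _ (det_vandermonde_ne_zero_iff.2 hx) ?_
    have h1 := NonV_sum (algebraMap K Ω) (vandermonde x) (cmp a) x
      (NonV_cmp (algebraMap K Ω) a x hax) q.2.1
    have h2 := NonV_sum (algebraMap K Ω) (vandermonde x) _ _ h1 q.1
    have h3 := NonV_sum (algebraMap K Ω) (vandermonde x) _ _ (NonV_aeval a x hax P) q.2.2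
    rw [hM]
    beta_reduce
    rw [map_sub, mul_sub, h2, h3, ← sub_mul, diagonal_sub]
  have h0 : (M (r, c, e)).det ≠ 0 := by
    rw [← map_ne_zero (algebraMap K Ω), hdet]
    exact Finset.prod_ne_zero_iff.2 fun i _ => sub_ne_zero.2 (h i)
  have hev : ∀ᶠ q in 𝓝 (r, c, e), (M q).det ≠ 0 :=
    (Continuous.matrix_det hcont).continuousAt.eventually_ne h0
  filter_upwards [hev] with q hq i
  rw [← map_ne_zero (algebraMap K Ω), hdet, Finset.prod_ne_zero_iff] at hq
  exact sub_ne_zero.1 (hq i (Finset.mem_univ i))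

end DC83
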