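import Pool.Agent.H.MP_83e36b_nt.td.DDef
import Pool.Agent.H.MP_83e36b_nt.nr.Defs
import Pool.Agent.H.MP_83e36b_nt.tw.SymD

/-! Towers of extensions by symmetric groups, alternating groups and their double covers. -/

set_option autoImplicit false

namespace DC83

open NR83

/-- The homomorphisms `α : G → Gal(K/ℚ)` for which the group `G` is built up in finitely many steps, in
any order, starting from an isomorphism `G → Gal(K/ℚ)` (`gal`), by surjections `q : G → A` with kernel
* a product of symmetric groups (`sym`),
* a group with a subnormal series whose factors are alternating groups `A_n`, `n ≥ 5`, `n ≠ 6` (`alt`),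
* the double cover `2.A_n`, `n ≥ 4`, mapped isomorphically onto the subgroup `2.A_n` of `2.A_(n+m)` by a
  homomorphism `φ` defined on all of `G` (`dbl`). -/
inductive SymTower {K : Type} [Field K] [Algebra ℚ K] :
    {G : Type} → [Group G] → (G →* (K ≃ₐ[ℚ] K)) → Prop
  | gal {G : Type} [Group G] (α : G →* (K ≃ₐ[ℚ] K)) (h : Function.Bijective α) : SymTower α
  | sym {G A : Type} [Group G] [Group A] (γ : A →* (K ≃ₐ[ℚ] K)) (q : G →* A)
      (hq : Function.Surjective q) {J I : Type} [Finite J] [Finite I] [MulAction G J]
      [MulAction A I] (p : J → I) (h : SymKer q p) (hγ : SymTower γ) : SymTower (γ.comp q)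
  | alt {G A : Type} [Group G] [Group A] (γ : A →* (K ≃ₐ[ℚ] K)) (q : G →* A)
      (hq : Function.Surjective q) (hN : AltSeries q.ker) (hγ : SymTower γ) :
      SymTower (γ.comp q)
  | dbl {G A : Type} [Group G] [Group A] (γ : A →* (K ≃ₐ[ℚ] K)) (q : G →* A)
      (hq : Function.Surjective q) (n m : ℕ) (hn : 4 ≤ n) (φ : G →* dAlt (n + m))
      (hφ : KerTwoAlt q φ) (hγ : SymTower γ) : SymTower (γ.comp q)

end DC83
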