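import Pool.Agent.H.MP_83e36b_nt.tw.CDef
import Pool.Agent.H.MP_83e36b_nt.tw.STow
import Pool.Agent.H.MP_83e36b_nt.dc.Clf

/-! `STower` and `SymTower`. -/

set_option autoImplicit false

open Matrix

namespace DC83

private theorem CBr_sq {n : ℕ} {i j : Fin n} (h : i ≠ j) :
    (cE ℚ n i - cE ℚ n j) * (cE ℚ n i - cE ℚ n j) = (2 : ℚ) • 1 := by
  have h1 := cE_anti ℚ n h
  rw [sub_mul, mul_sub, mul_sub, cE_sq, cE_sq, h1, two_smul]
  abel

private theorem CBr_inv {n : ℕ} {i j k l : Fin n} (h : i ≠ j) (h' : k ≠ l) :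
    ((1 / 2 : ℚ) • ((cE ℚ n i - cE ℚ n j) * (cE ℚ n k - cE ℚ n l))) *
      ((1 / 2 : ℚ) • ((cE ℚ n k - cE ℚ n l) * (cE ℚ n i - cE ℚ n j))) = 1 := by
  have e1 := CBr_sq h
  have e2 := CBr_sq h'
  generalize cE ℚ n i - cE ℚ n j = a at *
  generalize cE ℚ n k - cE ℚ n l = b at *
  have e3 : a * b * (b * a) = (4 : ℚ) • 1 := by
    calc a * b * (b * a) = a * (b * b) * a := by simp only [mul_assoc]
      _ = (2 : ℚ) • (a * a) := by
          rw [e2, Matrix.mul_smul, mul_one, Matrix.smul_mul]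
      _ = (4 : ℚ) • 1 := by rw [e1, smul_smul]; norm_num
  rw [Matrix.smul_mul, Matrix.mul_smul, e3, smul_smul, smul_smul]
  norm_num

/-- the elements `x` with `x + x = y` -/
private theorem CBr_half {N : ℕ} (x y : Matrix (Ix N) (Ix N) ℚ) :
    x + x = y ↔ x = (1 / 2 : ℚ) • y := by
  constructor
  · rintro rfl
    rw [← two_smul ℚ x, smul_smul]
    norm_num
  · rintro rfl
    rw [← two_smul ℚ ((1 / 2 : ℚ) • y), smul_smul]
    norm_num

/-- the generators, as units -/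
private noncomputable def CBr_u {N : ℕ} {i j k l : Fin N} (h : i ≠ j) (h' : k ≠ l) :
    (Matrix (Ix N) (Ix N) ℚ)ˣ :=
  ⟨(1 / 2 : ℚ) • ((cE ℚ N i - cE ℚ N j) * (cE ℚ N k - cE ℚ N l)),
    (1 / 2 : ℚ) • ((cE ℚ N k - cE ℚ N l) * (cE ℚ N i - cE ℚ N j)), CBr_inv h h', CBr_inv h' h⟩

/-- the group generated by the units -/
private def CBr_g (n N : ℕ) : Subgroup (Matrix (Ix N) (Ix N) ℚ)ˣ :=
  Subgroup.closure {x | ∃ i j k l : Fin N, i.1 < n ∧ j.1 < n ∧ k.1 < n ∧ l.1 < n ∧ i ≠ j ∧ k ≠ l ∧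
    (x : Matrix (Ix N) (Ix N) ℚ) = (1 / 2 : ℚ) •
      ((cE ℚ N i - cE ℚ N j) * (cE ℚ N k - cE ℚ N l))}

private theorem CBr_fwd {n N : ℕ} (u : (Matrix (Ix N) (Ix N) ℚ)ˣ) (hu : u ∈ CBr_g n N) :
    (show CMat N from u.1) ∈ twoAlt n N ∧ (show CMat N from u⁻¹.1) ∈ twoAlt n N := by
  refine Subgroup.closure_induction (p := fun u _ => (show CMat N from u.1) ∈ twoAlt n N ∧
    (show CMat N from u⁻¹.1) ∈ twoAlt n N) ?_ ?_ ?_ ?_ hu
  · rintro x ⟨i, j, k, l, hi, hj, hk, hl, h, h', hx⟩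
    constructor
    · refine Submonoid.subset_closure ⟨i, j, k, l, hi, hj, hk, hl, h, h', ?_⟩
      exact (CBr_half _ _).2 hx
    · refine Submonoid.subset_closure ⟨k, l, i, j, hk, hl, hi, hj, h', h, ?_⟩
      refine (CBr_half _ _).2 ?_
      have h1 : x = CBr_u h h' := Units.ext hx
      rw [h1]
      rfl
  · exact ⟨one_mem _, by
      have := one_mem (twoAlt n N)
      rw [inv_one]
      exact this⟩
  · rintro x y _ _ ⟨h1, h2⟩ ⟨h3, h4⟩
    refine ⟨mul_mem h1 h3, ?_⟩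
    rw [_root_.mul_inv_rev]
    exact mul_mem h4 h2
  · rintro x _ ⟨h1, h2⟩
    refine ⟨h2, ?_⟩
    rw [inv_inv]
    exact h1

private theorem CBr_bwd {n N : ℕ} (x : CMat N) (hx : x ∈ twoAlt n N) :
    ∃ u ∈ CBr_g n N, (u.1 : Matrix (Ix N) (Ix N) ℚ) = x := by
  refine Submonoid.closure_induction (motive := fun x _ => ∃ u ∈ CBr_g n N,
    (u.1 : Matrix (Ix N) (Ix N) ℚ) = x) ?_ ?_ ?_ hx
  · rintro x ⟨i, j, k, l, hi, hj, hk, hl, h, h', hx⟩
    have h1 := (CBr_half (N := N) _ _).1 hx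
    exact ⟨CBr_u h h', Subgroup.subset_closure ⟨i, j, k, l, hi, hj, hk, hl, h, h', rfl⟩, h1.symm⟩
  · exact ⟨1, one_mem _, rfl⟩
  · rintro x y _ _ ⟨u, hu, rfl⟩ ⟨w, hw, rfl⟩
    exact ⟨u * w, mul_mem hu hw, rfl⟩

private theorem CBr_top (N : ℕ) : CBr_g N N = dAlt N := by
  unfold CBr_g dAlt
  congr 1
  ext x
  constructor
  · rintro ⟨i, j, k, l, -, -, -, -, h⟩
    exact ⟨i, j, k, l, h⟩
  · rintro ⟨i, j, k, l, h⟩
    exact ⟨i, j, k, l, i.2, j.2, k.2, l.2, h⟩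

private theorem CBr_sub {n m : ℕ} (x : dAlt (n + m)) :
    x ∈ dAltIn n m ↔ x.1 ∈ CBr_g n (n + m) := by
  have h1 : (dAltIn n m).map (dAlt (n + m)).subtype = CBr_g n (n + m) := by
    unfold dAltIn CBr_g
    rw [MonoidHom.map_closure]
    congr 1
    ext x
    constructor
    · rintro ⟨y, ⟨i, j, k, l, h, h', hy⟩, rfl⟩
      exact ⟨Fin.castAdd m i, Fin.castAdd m j, Fin.castAdd m k, Fin.castAdd m l, i.2, j.2, k.2, l.2,
        fun e => h (Fin.castAdd_injective n m e), fun e => h' (Fin.castAdd_injective n m e), hy⟩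
    · rintro ⟨i, j, k, l, hi, hj, hk, hl, h, h', hx⟩
      have hmem : x ∈ dAlt (n + m) := Subgroup.subset_closure ⟨i, j, k, l, h, h', hx⟩
      refine ⟨⟨x, hmem⟩, ⟨⟨i.1, hi⟩, ⟨j.1, hj⟩, ⟨k.1, hk⟩, ⟨l.1, hl⟩, ?_, ?_, hx⟩, rfl⟩
      · intro e
        exact h (Fin.ext (Fin.mk.inj e))
      · intro e
        exact h' (Fin.ext (Fin.mk.inj e))
  rw [← h1]
  constructor
  · intro hx
    exact ⟨x, hx, rfl⟩
  · rintro ⟨y, hy, hxy⟩
    rwa [← Subtype.ext hxy]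

theorem KerDbl.ker {n m : ℕ} {G A : Type} [Group G] [Group A] {q : G →* A}
    {φ : G →* CMat (n + m)} (h : KerDbl n (n + m) q φ) : ∃ ψ : G →* dAlt (n + m), KerTwoAlt q ψ := by
  have hu : ∀ g, (φ.toHomUnits g : (Matrix (Ix (n + m)) (Ix (n + m)) ℚ)ˣ) ∈ dAlt (n + m) := by
    intro g
    obtain ⟨u, hu, hx⟩ := CBr_bwd _ (h.mem g)
    rw [CBr_top] at hu
    have h1 : (φ.toHomUnits g : (Matrix (Ix (n + m)) (Ix (n + m)) ℚ)ˣ) = u := Units.ext hx.symm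
    rw [h1]
    exact hu
  let ψ : G →* dAlt (n + m) := 
    { toFun := fun g => ⟨(φ.toHomUnits g : (Matrix (Ix (n + m)) (Ix (n + m)) ℚ)ˣ), hu g⟩
      map_one' := by
        apply Subtype.ext
        apply Units.ext
        exact map_one φ
      map_mul' := fun a b => by
        apply Subtype.ext
        apply Units.ext
        exact map_mul φ a b }
  have hψ : ∀ g, (((ψ g).1 : (Matrix (Ix (n + m)) (Ix (n + m)) ℚ)ˣ).1 : CMat (n + m)) = φ g :=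
    fun g => rfl
  refine ⟨ψ, ⟨fun g hg hg' => h.inj g hg ?_, ?_⟩⟩
  · rw [← hψ, hg']
    rfl
  · ext x
    rw [CBr_sub]
    constructor
    · rintro ⟨g, hg, rfl⟩
      have h1 : φ g ∈ twoAlt n (n + m) := (h.image _).2 ⟨g, hg, rfl⟩
      obtain ⟨u, hu', hx⟩ := CBr_bwd _ h1
      have h2 : (ψ g).1 = u := Units.ext ((hψ g).trans hx.symm)
      rw [h2]
      exact hu'
    · intro hx
      obtain ⟨g, hg, hgx⟩ := (h.image _).1 (CBr_fwd _ hx).1
      refine ⟨g, hg, ?_⟩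
      apply Subtype.ext
      apply Units.ext
      exact (hψ g).trans hgx

theorem STower.sym' {K : Type} [Field K] [Algebra ℚ K] {G : Type} [Group G]
    {α : G →* (K ≃ₐ[ℚ] K)} (h : STower α) : SymTower α := by
  induction h with
  | gal α h => exact SymTower.gal α h
  | sym γ q hq p h hγ ih => exact SymTower.sym γ q hq p h ih
  | alt γ q hq hN hγ ih => exact SymTower.alt γ q hq hN ih
  | dbl γ q hq n N hn hN φ hφ hγ ih =>
    obtain ⟨m, rfl⟩ := Nat.exists_eq_add_of_le hN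
    obtain ⟨ψ, hψ⟩ := hφ.ker
    exact SymTower.dbl γ q hq n m hn ψ hψ ih

end DC83
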