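import Pool.Agent.H.MP_83e36b_nt.dc.MDef2
import Pool.Agent.H.MP_83e36b_nt.td.DDef
import Pool.Agent.H.MP_83e36b_nt.nr.TDefs

/-! Towers of extensions by the double covers of the alternating groups. -/

set_option autoImplicit false

open Polynomial

namespace DC83

open CM83 NR83 WA83

/-- Weak approximation over `ℚ` for the homogeneous spaces given by the homomorphism `α : G → Gal(K/ℚ)`:
for all faithful semilinear actions of `G` on `K(x_1, ..., x_d)` over its action on `K`, and all smooth
hypersurface models `X : f(u, y) = 0`, `f_y(u, y) g(u, y) ≠ 0` of a field stably isomorphic to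
`K(x_1, ..., x_d)^G`. -/
def WAFor {K : Type} [Field K] [Algebra ℚ K] {G : Type} [Group G] (α : G →* (K ≃ₐ[ℚ] K)) : Prop :=
  ∀ (d : ℕ) (β : G →* (RF K d ≃ₐ[ℚ] RF K d)), SemiLin α β →
    ∀ (m : ℕ) (f g : (MvPolynomial (Fin m) ℚ)[X]) (F : Type) [Field F] [Algebra ℚ F]
      (ξ : Fin m → F) (η : F), Generic f F ξ η → evP (algebraMap ℚ F) ξ η g ≠ 0 →
      StablyIso ℚ F (fixF β) → WeakApprox f g

/-- The homomorphisms `α : G → Gal(K/ℚ)` obtained from those with a kernel which is an elementary abelian
2-group split off as a direct factor (`base`; in particular from isomorphisms), or with weak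
approximation (`known`), by surjections `G → A` whose kernel has a subnormal series with the factors
alternating groups `A_n`, `n ≥ 5`, `n ≠ 6` (or is the top of a Weyl tower) (`alt`), and by surjections
`q : G → A` whose kernel is the double cover `2.A_n`, `n ≥ 4`, mapped isomorphically onto the
subgroup `2.A_n` of `2.A_(n+m)` by a homomorphism `φ` defined on `G` (`dbl`). -/
inductive DTower {K : Type} [Field K] [Algebra ℚ K] :
    {G : Type} → [Group G] → (G →* (K ≃ₐ[ℚ] K)) → Prop
  | base {G : Type} [Group G] (α : G →* (K ≃ₐ[ℚ] K)) (t : ℕ) (χ : G →* (Fin t → ℤˣ))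
      (h : Function.Bijective (α.prod χ)) : DTower α
  | known {G : Type} [Group G] (α : G →* (K ≃ₐ[ℚ] K)) (h : WAFor α) : DTower α
  | alt {G A : Type} [Group G] [Group A] (γ : A →* (K ≃ₐ[ℚ] K)) (q : G →* A)
      (hq : Function.Surjective q) (hN : AltSeries q.ker ∨ Tower G q.ker) (hγ : DTower γ) :
      DTower (γ.comp q)
  | dbl {G A : Type} [Group G] [Group A] (γ : A →* (K ≃ₐ[ℚ] K)) (q : G →* A)
      (hq : Function.Surjective q) (n m : ℕ) (hn : 4 ≤ n) (φ : G →* dAlt (n + m))
      (hφ : KerTwoAlt q φ) (hγ : DTower γ) : DTower (γ.comp q)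

end DC83
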