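import Pool.Agent.H.MP_83e36b_nt.tw.SymB
import Pool.Agent.H.MP_83e36b_nt.tw.TDef
import Pool.Agent.H.MP_83e36b_nt.nr.Semi
import Pool.Agent.H.MP_83e36b_nt.nr.SCore
import Pool.Agent.H.MP_83e36b_nt.nr.RepAct

/-! The step of the towers with a product of symmetric groups. -/

set_option autoImplicit false

open Polynomial

namespace DC83

open CM83 NR83 WA83

/-- Proof: `L = RF K e` with the action `δ` of `A`; `J ≃ Fin n`; `exists_repAct` (nr/RepAct.lean) for
`δ ∘ q` and the permutation representation of `G` on `J`: the action `ε` of `G` on `E = RF L n`, with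
`ε g (x_j) = x_(g j)`.  `sym_quot`: `StablyIso (fixF δ) (fixF ε)`.  `β` and `ε` are compared as in
nr/SCore.lean (`exists_semi_ext`, `noname`, `semiext`). -/
theorem red_sym {k : Type} [Field k] [CharZero k] {K : Type} [Field K] [Algebra k K]
    {G A : Type} [Group G] [Finite G] [Group A] (q : G →* A) (hq : Function.Surjective q)
    {J I : Type} [Finite J] [Finite I] [MulAction G J] [MulAction A I] {p : J → I}
    (h : SymKer q p) (γ : A →* (K ≃ₐ[k] K)) {d e : ℕ} (β : G →* (RF K d ≃ₐ[k] RF K d))
    (hβ : SemiLin (γ.comp q) β) (δ : A →* (RF K e ≃ₐ[k] RF K e)) (hδ : SemiLin γ δ) :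
    StablyIso k (fixF β) (fixF δ) := by
  classical
  have hczK : CharZero K := charZero_of_injective_algebraMap (algebraMap k K).injective
  have hcz : CharZero (RF K e) := charZero_of_injective_algebraMap (algebraMap K (RF K e)).injective
  obtain ⟨n, ⟨e0⟩⟩ : ∃ n, Nonempty (J ≃ Fin n) := ⟨_, ⟨Finite.equivFin J⟩⟩
  let ρ₀ : G →* Matrix (Fin n) (Fin n) k :=
    { toFun := fun g => Matrix.of fun j i => if j = e0 (g • e0.symm i) then 1 else 0
      map_one' := by
        ext j i
        simp [Matrix.one_apply]
      map_mul' := fun g h => by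
        ext j i
        simp only [Matrix.of_apply, Matrix.mul_apply, mul_smul]
        rw [Finset.sum_eq_single (e0 (h • e0.symm i))]
        · simp
        · intro l _ hl
          rw [if_neg hl, mul_zero]
        · intro hh
          exact absurd (Finset.mem_univ _) hh }
  let ρ : G →* Matrix.GeneralLinearGroup (Fin n) k := MonoidHom.toHomUnits ρ₀
  obtain ⟨ε, hε1, hε2⟩ := exists_repAct (δ.comp q) ρ
  have hε3 : ∀ g i, ε g (xv (RF K e) i) = xv (RF K e) (e0 (g • e0.symm i)) := by
    intro g i
    rw [hε2, Finset.sum_eq_single (e0 (g • e0.symm i))]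
    · change algebraMap k _ (if _ = _ then 1 else 0) * _ = _
      rw [if_pos rfl, map_one, one_mul]
    · intro l _ hl
      change algebraMap k _ (if _ = _ then 1 else 0) * _ = _
      rw [if_neg hl, map_zero, zero_mul]
    · intro hh
      exact absurd (Finset.mem_univ _) hh
  have hδε : StablyIso k (fixF δ) (fixF ε) := by
    refine sym_quot q hq h δ hδ.inj (fun j => xv (RF K e) (e0 j))
      (xv_algInd.comp e0 e0.injective) ?_ ε hε1 ?_
    · have h1 : Set.range (fun j => xv (RF K e) (e0 j)) = Set.range (xv (RF K e)) :=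
        e0.surjective.range_comp (xv (RF K e) : Fin n → RF (RF K e) n)
      rw [h1]
      exact adjoin_xv
    · intro g j
      rw [hε3, e0.symm_apply_apply]
  have hεK : ∀ g (a : K), ε g (algebraMap K (RF (RF K e) n) a) =
      algebraMap K (RF (RF K e) n) ((γ.comp q) g a) := by
    intro g a
    rw [IsScalarTower.algebraMap_apply K (RF K e) (RF (RF K e) n), hε1,
      IsScalarTower.algebraMap_apply K (RF K e) (RF (RF K e) n)]
    congr 1
    exact hδ.coeff _ a
  have hxinj : Function.Injective (xv (RF K e) : Fin n → RF (RF K e) n) :=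
    xv_algInd.injective
  -- faithful
  have hfaith : ∀ g, (∀ a, ε g a = a) → g = 1 := by
    intro g hg
    have hg1 : q g = 1 := by
      apply hδ.inj
      rw [map_one]
      ext a
      apply (algebraMap (RF K e) (RF (RF K e) n)).injective
      have h2 := hg (algebraMap (RF K e) (RF (RF K e) n) a)
      rw [hε1] at h2
      exact h2
    apply h.inj g hg1
    intro j
    have h2 := hg (xv (RF K e) (e0 j))
    rw [hε3, e0.symm_apply_apply] at h2
    exact e0.injective (hxinj h2)
  -- the action of `G` on `F`
  obtain ⟨γF, hγ1, hγ2⟩ := exists_semi_ext (γ.comp q) β hβ ε hεK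
  obtain ⟨c, hc⟩ := hβ.exists_coeff
  have hEF : StablyIso k (fixF ε) (fixF γF) := by
    refine noname ε γF hγ1 (xv (RF (RF K e) n)) xv_algInd adjoin_xv ?_ ?_
    · intro g p
      rw [hγ2 g p (c g p) (hc g p)]
      refine Submodule.sum_mem _ fun j _ => ?_
      rw [IsScalarTower.algebraMap_apply K (RF (RF K e) n), ← Algebra.smul_def]
      exact Submodule.smul_mem _ _ (Submodule.subset_span ⟨j, rfl⟩)
    · intro g hg p
      rw [hfaith g hg, map_one]
      rfl
  have hVF : StablyIso k (fixF β) (fixF γF) := by
    have h1 := (xv_algInd (k := K) (n := e)).sumElim_comp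
      (xv_algInd (k := RF K e) (n := n))
    have h2 := core_top (adjoin_xv (k := K) (n := e)) (adjoin_xv (k := RF K e) (n := n))
    refine semiext (γ.comp q) β hβ γF ?_ (xv (RF (RF K e) n)) _
      (h1.sumElim_comp xv_algInd) (core_top h2 adjoin_xv) hγ2 ?_
    · intro g a
      rw [IsScalarTower.algebraMap_apply K (RF (RF K e) n), hγ1, hεK,
        ← IsScalarTower.algebraMap_apply K (RF (RF K e) n)]
    rintro g (i | i)
    · change γF g (algebraMap (RF (RF K e) n) (RF (RF (RF K e) n) d) (xv (RF K e) i)) ∈ _
      rw [hγ1, hε3]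
      exact Submodule.subset_span ⟨Sum.inl (e0 (g • e0.symm i)), rfl⟩
    · obtain ⟨c', hc'⟩ := hδ.exists_coeff
      have h3 : γF g (algebraMap (RF (RF K e) n) (RF (RF (RF K e) n) d)
          (algebraMap (RF K e) (RF (RF K e) n) (xv K i))) = ∑ j,
            (c' (q g) i j) •
            algebraMap (RF (RF K e) n) (RF (RF (RF K e) n) d)
              (algebraMap (RF K e) (RF (RF K e) n) (xv K j)) := by
        have h4 : (δ.comp q) g (xv K i) = ∑ j, algebraMap K (RF K e) (c' (q g) i j) *
            xv K j := hc' _ i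
        rw [hγ1, hε1, h4, map_sum, map_sum]
        refine Finset.sum_congr rfl fun l _ => ?_
        rw [Algebra.smul_def, map_mul, map_mul, ← IsScalarTower.algebraMap_apply K (RF K e),
          ← IsScalarTower.algebraMap_apply K (RF (RF K e) n)]
      change γF g (algebraMap (RF (RF K e) n) (RF (RF (RF K e) n) d)
          (algebraMap (RF K e) (RF (RF K e) n) (xv K i))) ∈ _
      rw [h3]
      refine Submodule.sum_mem _ fun j _ => Submodule.smul_mem _ _ (Submodule.subset_span ?_)
      exact ⟨Sum.inr j, rfl⟩
  exact (hVF.trans hEF.symm).trans hδε.symm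

end DC83
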