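import Pool.Agent.H.MP_83e36b_nt.dc.Defs
import Pool.Agent.H.MP_83e36b_nt.nr.Defs
import Pool.Agent.H.MP_83e36b_nt.tw.SymD

/-! Towers of extensions by symmetric groups, alternating groups and their double covers. -/

set_option autoImplicit false

namespace DC83

open NR83

/-- the matrices (of size `2^N`) which contain the Clifford algebra of `x_1² + ... + x_N²` over `ℚ` -/
def CMat (N : ℕ) : Type := Matrix (Ix N) (Ix N) ℚ

noncomputable instance instRingCMat (N : ℕ) : Ring (CMat N) :=
  @Matrix.instRing (Ix N) ℚ _ _ _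

/-- the generator `e_i` of the Clifford algebra of `x_1² + ... + x_N²`: `e_i² = 1`,
`e_i e_j = - e_j e_i` -/
def gE (N : ℕ) (i : Fin N) : CMat N := cE ℚ N i

/-- the double cover `2.A_n` of the alternating group `A_n` (`n ≤ N`): the group (the set of generators
is closed under inverses) generated by the elements `(1/2) (e_i - e_j) (e_k - e_l)`, `i, j, k, l` among the
first `n` indices, `i ≠ j`, `k ≠ l`, of the Clifford algebra of `x_1² + ... + x_N²` -/
noncomputable def twoAlt (n N : ℕ) : Submonoid (CMat N) :=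
  Submonoid.closure {x | ∃ i j k l : Fin N, i.1 < n ∧ j.1 < n ∧ k.1 < n ∧ l.1 < n ∧ i ≠ j ∧ k ≠ l ∧
    x + x = (gE N i - gE N j) * (gE N k - gE N l)}

/-- the homomorphism `φ` from `G` to the double cover `2.A_N = twoAlt N N` maps the kernel of `q`
isomorphically onto its subgroup `2.A_n = twoAlt n N` -/
structure KerDbl (n N : ℕ) {G A : Type} [Group G] [Group A] (q : G →* A) (φ : G →* CMat N) :
    Prop where
  mem : ∀ g, φ g ∈ twoAlt N N
  inj : ∀ g, q g = 1 → φ g = 1 → g = 1
  image : ∀ x, x ∈ twoAlt n N ↔ ∃ g, q g = 1 ∧ φ g = x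

/-- The homomorphisms `α : G → Gal(K/ℚ)` for which the group `G` is built up in finitely many steps, in
any order, starting from an isomorphism `G → Gal(K/ℚ)` (`gal`), by surjections `q : G → A` with kernel
* a product of symmetric groups (`sym`),
* a group with a subnormal series whose factors are alternating groups `A_n`, `n ≥ 5`, `n ≠ 6` (`alt`),
* the double cover `2.A_n`, `n ≥ 4`, mapped isomorphically onto the subgroup `2.A_n` of `2.A_N` by a
  homomorphism `φ` defined on all of `G` (`dbl`). -/
inductive STower {K : Type} [Field K] [Algebra ℚ K] :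
    {G : Type} → [Group G] → (G →* (K ≃ₐ[ℚ] K)) → Prop
  | gal {G : Type} [Group G] (α : G →* (K ≃ₐ[ℚ] K)) (h : Function.Bijective α) : STower α
  | sym {G A : Type} [Group G] [Group A] (γ : A →* (K ≃ₐ[ℚ] K)) (q : G →* A)
      (hq : Function.Surjective q) {J I : Type} [Finite J] [Finite I] [MulAction G J]
      [MulAction A I] (p : J → I) (h : SymKer q p) (hγ : STower γ) : STower (γ.comp q)
  | alt {G A : Type} [Group G] [Group A] (γ : A →* (K ≃ₐ[ℚ] K)) (q : G →* A)
      (hq : Function.Surjective q) (hN : AltSeries q.ker) (hγ : STower γ) :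
      STower (γ.comp q)
  | dbl {G A : Type} [Group G] [Group A] (γ : A →* (K ≃ₐ[ℚ] K)) (q : G →* A)
      (hq : Function.Surjective q) (n N : ℕ) (hn : 4 ≤ n) (hN : n ≤ N) (φ : G →* CMat N)
      (hφ : KerDbl n N q φ) (hγ : STower γ) : STower (γ.comp q)

end DC83
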