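import Pool.Agent.H.MP_83e36b_nt.dc.Quad

/-! The Grunwald problem relative to a Galois extension, with local conditions at a finite set of places
only. -/

set_option autoImplicit false

open SpinWA

namespace DC83

/-- The strong form of the relative Grunwald problem: let `S` be a finite set of places containing the
real place; homomorphisms `ρ v`, `v ∈ S`, of the absolute Galois groups of the completions to `G`
which induce by `α` the action on `K` are, up to conjugation by the kernel of `α`, the restrictions of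
a homomorphism of the absolute Galois group of `ℚ` to `G` which induces by `α` the action on `K`.
(Nothing is assumed at the other places: the `ρ v`, `v ∉ S`, are not used.) -/
def RelGrunwaldS {K : Type} [Field K] [Algebra ℚ K] {G : Type} [Group G]
    (α : G →* (K ≃ₐ[ℚ] K)) : Prop :=
  ∀ (S : Finset Pl), none ∈ S → ∀ (κ : K →+* Qb) (ι : ∀ v : Pl, Qb →+* Om v)
    (ρ : ∀ v : Pl, (Om v ≃ₐ[Cpl v] Om v) →* G), (∀ v ∈ S, Cts (ρ v)) →
    (∀ v ∈ S, ∀ τ x, τ (ι v (κ x)) = ι v (κ (α (ρ v τ) x))) →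
    ∃ ρ₀ : (Qb ≃ₐ[ℚ] Qb) →* G, Cts ρ₀ ∧ (∀ τ x, τ (κ x) = κ (α (ρ₀ τ) x)) ∧
      ∀ v ∈ S, ∃ g : G, α g = 1 ∧ ∀ τ τ₀,
        (∀ x, ι v (τ₀ x) = τ (ι v x)) → ρ₀ τ₀ = g * ρ v τ * g⁻¹

end DC83
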