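import Pool.Agent.H.MP_83e36b_nt.td.STrA
import Pool.Agent.H.MP_83e36b_nt.td.STrB
import Pool.Agent.H.MP_83e36b_nt.td.STrBp
import Pool.Agent.H.MP_83e36b_nt.td.STrC
import Pool.Agent.H.MP_83e36b_nt.dc.TrDa
import Pool.Agent.H.MP_83e36b_nt.dc.TrD
import Pool.Agent.H.MP_83e36b_nt.td.STrE
import Pool.Agent.H.MP_83e36b_nt.td.STrF
import Pool.Agent.H.MP_83e36b_nt.td.STrGp
import Pool.Agent.H.MP_83e36b_nt.td.SH90
import Pool.Agent.H.MP_83e36b_nt.tw.GDefS
import Pool.Agent.H.MP_83e36b_nt.dc.Res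
import Pool.Agent.H.MP_83e36b_nt.sp.LWa
import Pool.Agent.H.MP_83e36b_nt.wa.Local

/-! From the relative Grunwald problem to weak approximation, strong form: local points at the places
of `S` only. -/

set_option autoImplicit false

open Matrix Polynomial SpinWA Topology

namespace DC83

open CM83 NR83 WA83

universe u

attribute [local instance 2000] OreLocalization.instAlgebra IntermediateField.algebra' Algebra.id

/-- the point of the affine space given by the values of rational functions -/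
private def STrGS_F {K : Type} [Field K] (φ : ℚ →+* K) {d m : ℕ} (D C' : MvPolynomial (Fin d) ℚ)
    (C : Fin m → MvPolynomial (Fin d) ℚ) (x : Fin d → K) : (Fin m → K) × K :=
  (fun j => MvPolynomial.eval₂ φ x (C j) / MvPolynomial.eval₂ φ x D,
    MvPolynomial.eval₂ φ x C' / MvPolynomial.eval₂ φ x D)

private theorem STrGS_Fcont {K : Type} [NormedField K] (φ : ℚ →+* K) {d m : ℕ}
    (D C' : MvPolynomial (Fin d) ℚ) (C : Fin m → MvPolynomial (Fin d) ℚ) (c : Fin d → K)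
    (hD : MvPolynomial.eval₂ φ c D ≠ 0) : ContinuousAt (STrGS_F φ D C' C) c := by
  have hDc : ContinuousAt (fun x : Fin d → K => MvPolynomial.eval₂ φ x D) c :=
    (cont' φ D).continuousAt
  have hXc : ∀ j, ContinuousAt (fun x : Fin d → K => MvPolynomial.eval₂ φ x (C j) /
      MvPolynomial.eval₂ φ x D) c := fun j => (cont' φ (C j)).continuousAt.div hDc hD
  have hYc : ContinuousAt (fun x : Fin d → K => MvPolynomial.eval₂ φ x C' /
      MvPolynomial.eval₂ φ x D) c := (cont' φ C').continuousAt.div hDc hD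
  exact (continuousAt_pi.2 hXc).prodMk hYc

/-- the open set of the approximation, in the coordinates of the variety -/
private def STrGS_U {K : Type} [NormedField K] (φ : ℚ →+* K) {m : ℕ}
    (q₁ q₂ : (MvPolynomial (Fin m) ℚ)[X]) (X : Fin m → K) (Y : K) (ε : ℝ) :
    Set ((Fin m → K) × K) :=
  {p | (∀ j, ‖p.1 j - X j‖ < ε) ∧ ‖p.2 - Y‖ < ε ∧ evP φ p.1 p.2 q₁ ≠ 0 ∧ evP φ p.1 p.2 q₂ ≠ 0}

private theorem STrGS_Unhds {K : Type} [NormedField K] (φ : ℚ →+* K) {m : ℕ}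
    (q₁ q₂ : (MvPolynomial (Fin m) ℚ)[X]) (X : Fin m → K) (Y : K) (ε : ℝ)
    (p : (Fin m → K) × K) (hp : p ∈ STrGS_U φ q₁ q₂ X Y ε) : STrGS_U φ q₁ q₂ X Y ε ∈ 𝓝 p := by
  have h1 := (((cont φ q₁).continuousAt (x := p)).eventually_ne hp.2.2.1)
  have h2 := (((cont φ q₂).continuousAt (x := p)).eventually_ne hp.2.2.2)
  have h3 : ∀ᶠ q : (Fin m → K) × K in 𝓝 p, ∀ j, ‖q.1 j - X j‖ < ε := by
    rw [Filter.eventually_all]
    intro j
    have h4 : ContinuousAt (fun q : (Fin m → K) × K => ‖q.1 j - X j‖) p :=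
      (((continuous_apply j).comp continuous_fst).sub continuous_const).norm.continuousAt
    exact h4.eventually_lt continuousAt_const (hp.1 j)
  have h5 : ∀ᶠ q : (Fin m → K) × K in 𝓝 p, ‖q.2 - Y‖ < ε := by
    have h4 : ContinuousAt (fun q : (Fin m → K) × K => ‖q.2 - Y‖) p :=
      (continuous_snd.sub continuous_const).norm.continuousAt
    exact h4.eventually_lt continuousAt_const hp.2.1
  exact h3.and (h5.and (h1.and h2))

/-- the open set of the approximation, in the coordinates of the affine space -/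
private def STrGS_set {K : Type} [NormedField K] (φ : ℚ →+* K) {d m : ℕ}
    (q₁ q₂ : (MvPolynomial (Fin m) ℚ)[X]) (D C' : MvPolynomial (Fin d) ℚ)
    (C : Fin m → MvPolynomial (Fin d) ℚ) (X : Fin m → K) (Y : K) (ε : ℝ) : Set (Fin d → K) :=
  {x | MvPolynomial.eval₂ φ x D ≠ 0 ∧ STrGS_F φ D C' C x ∈ STrGS_U φ q₁ q₂ X Y ε}

/-- the set is a neighbourhood of each of its points -/
private theorem STrGS_nhds {K : Type} [NormedField K] (φ : ℚ →+* K) {d m : ℕ}
    (q₁ q₂ : (MvPolynomial (Fin m) ℚ)[X]) (D C' : MvPolynomial (Fin d) ℚ)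
    (C : Fin m → MvPolynomial (Fin d) ℚ) (X : Fin m → K) (Y : K) (ε : ℝ) (c : Fin d → K)
    (hc : c ∈ STrGS_set φ q₁ q₂ D C' C X Y ε) : STrGS_set φ q₁ q₂ D C' C X Y ε ∈ 𝓝 c := by
  have hDc : ContinuousAt (fun x : Fin d → K => MvPolynomial.eval₂ φ x D) c :=
    (cont' φ D).continuousAt
  have h1 := hDc.eventually_ne hc.1
  have h2 := (STrGS_Fcont φ D C' C c hc.1).eventually (STrGS_Unhds φ q₁ q₂ X Y ε _ hc.2)
  exact h1.and h2

private theorem STrGS_val {K : Type} [Field K] (φ : ℚ →+* K) {d : ℕ} (r : Fin d → ℚ)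
    (Q : MvPolynomial (Fin d) ℚ) : MvPolynomial.eval₂ φ (fun i => φ (r i)) Q =
      φ (MvPolynomial.eval₂ (RingHom.id ℚ) r Q) := by
  rw [MvPolynomial.hom_eval₂, RingHom.comp_id]

/-- the values at a rational point -/
private theorem STrGS_Frat {K : Type} [Field K] (φ : ℚ →+* K) {d m : ℕ}
    (D C' : MvPolynomial (Fin d) ℚ) (C : Fin m → MvPolynomial (Fin d) ℚ) (r : Fin d → ℚ) :
    STrGS_F φ D C' C (fun i => φ (r i)) =
      ((fun j => φ ((STrGS_F (RingHom.id ℚ) D C' C r).1 j)),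
        φ (STrGS_F (RingHom.id ℚ) D C' C r).2) := by
  unfold STrGS_F
  simp only [STrGS_val, map_div₀]

/-- a rational point of the set -/
private theorem STrGS_rat {K : Type} [NormedField K] (φ : ℚ →+* K) {d m : ℕ}
    (q₁ q₂ : (MvPolynomial (Fin m) ℚ)[X]) (D C' : MvPolynomial (Fin d) ℚ)
    (C : Fin m → MvPolynomial (Fin d) ℚ) (X : Fin m → K) (Y : K) (ε : ℝ) (r : Fin d → ℚ)
    (hc : (fun i => φ (r i)) ∈ STrGS_set φ q₁ q₂ D C' C X Y ε) :
    MvPolynomial.eval₂ (RingHom.id ℚ) r D ≠ 0 ∧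
    (∀ j, ‖φ ((STrGS_F (RingHom.id ℚ) D C' C r).1 j) - X j‖ < ε) ∧
    ‖φ (STrGS_F (RingHom.id ℚ) D C' C r).2 - Y‖ < ε ∧
    evP (RingHom.id ℚ) (STrGS_F (RingHom.id ℚ) D C' C r).1
      (STrGS_F (RingHom.id ℚ) D C' C r).2 q₁ ≠ 0 ∧
    evP (RingHom.id ℚ) (STrGS_F (RingHom.id ℚ) D C' C r).1
      (STrGS_F (RingHom.id ℚ) D C' C r).2 q₂ ≠ 0 := by
  obtain ⟨h1, h2⟩ := hc
  rw [STrGS_Frat] at h2
  obtain ⟨h2, h3, h4, h5⟩ := h2
  refine ⟨fun h => h1 ?_, h2, h3, fun h => h4 ?_, fun h => h5 ?_⟩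
  · rw [STrGS_val, h, map_zero]
  · rw [evP_comp, h, map_zero]
  · rw [evP_comp, h, map_zero]

/-- the approximation at the places of `S` -/
private theorem STrGS_core {d m : ℕ} {f g : (MvPolynomial (Fin m) ℚ)[X]} (S : Finset Pl)
    (hS : none ∈ S) (P : ∀ v ∈ S, Pts f g (emb v)) {ε : ℝ} (D C' : MvPolynomial (Fin d) ℚ)
    (C : Fin m → MvPolynomial (Fin d) ℚ) (c : ∀ v : Pl, Fin d → Cpl v)
    (hc : ∀ v (hv : v ∈ S), c v ∈ STrGS_set (emb v) (derivative f) g D C' C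
      (P v hv).1.1 (P v hv).1.2 ε)
    (hf : ∀ r : Fin d → ℚ, MvPolynomial.eval₂ (RingHom.id ℚ) r D ≠ 0 → evP (RingHom.id ℚ)
      (STrGS_F (RingHom.id ℚ) D C' C r).1 (STrGS_F (RingHom.id ℚ) D C' C r).2 f = 0) :
    ∃ p : Pts f g (RingHom.id ℚ), ∀ v (hv : v ∈ S),
      (∀ j, ‖(mapPts (emb v) p).1.1 j - (P v hv).1.1 j‖ < ε) ∧
        ‖(mapPts (emb v) p).1.2 - (P v hv).1.2‖ < ε := by
  classical
  obtain ⟨r, hr⟩ := wa_fun S c
    (fun v => if hv : v ∈ S then
      STrGS_set (emb v) (derivative f) g D C' C (P v hv).1.1 (P v hv).1.2 ε else Set.univ)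
    (fun v hv => by
      rw [dif_pos hv]
      exact STrGS_nhds (emb v) _ _ _ _ _ _ _ _ _ (hc v hv))
  have hr' := fun (v : Pl) (hv : v ∈ S) =>
    STrGS_rat (emb v) (derivative f) g D C' C (P v hv).1.1 (P v hv).1.2 ε r (by
      have h1 := hr v hv
      rw [dif_pos hv] at h1
      exact h1)
  obtain ⟨h1, -, -, h4, h5⟩ := hr' none hS
  refine ⟨⟨STrGS_F (RingHom.id ℚ) D C' C r, hf r h1, h4, h5⟩, fun v hv => ⟨fun j => ?_, ?_⟩⟩
  · exact (hr' v hv).2.1 j
  · exact (hr' v hv).2.2.1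

/-- an embedding of the field of rational functions at a polynomial -/
private theorem STrGS_eval {K : Type} [Field K] {d : ℕ} {Ω : Type} [Field Ω] (θ' : RF K d →+* Ω)
    (φ : K →+* Ω) (hφ : ∀ a, θ' (algebraMap K (RF K d) a) = φ a) (P : MvPolynomial (Fin d) K) :
    MvPolynomial.eval₂ φ (fun i => θ' (xv K i)) P =
      θ' (algebraMap (MvPolynomial (Fin d) K) (RF K d) P) := by
  have h : MvPolynomial.eval₂Hom φ (fun i => θ' (xv K i)) =
      θ'.comp (algebraMap (MvPolynomial (Fin d) K) (RF K d)) := by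
    apply MvPolynomial.ringHom_ext
    · intro c
      rw [MvPolynomial.eval₂Hom_C, ← hφ c]
      rfl
    · intro i
      rw [MvPolynomial.eval₂Hom_X']
      rfl
  exact RingHom.congr_fun h P

/-- the value of a twisted polynomial at the local parameters -/
private theorem STrGS_place {K : Type} [Field K] [Algebra ℚ K] {G : Type} [Group G]
    {α : G →* (K ≃ₐ[ℚ] K)} {d : ℕ} {β : G →* (RF K d ≃ₐ[ℚ] RF K d)} (hβ : SemiLin α β)
    {N : G → Matrix (Fin d) (Fin d) K}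
    (hN : ∀ g i, β g (xv K i) = ∑ j, algebraMap K (RF K d) (N g i j) * xv K j)
    {P : MvPolynomial (Fin d) K} {P' : MvPolynomial (Fin d) ℚ}
    (hP : ∀ g, β g (algebraMap _ (RF K d) P) = algebraMap _ (RF K d) P)
    {L : Type} [Field L] {Ω : Type} [Field Ω] [Algebra L Ω] (φ : ℚ →+* L) (κ : K →+* Qb)
    (ι : Qb →+* Ω) {T : Matrix (Fin d) (Fin d) Qb}
    (hP' : ∀ (L : Type) [Field L] (j : Qb →+* L) (c : Fin d → L),
      MvPolynomial.eval₂ (j.comp (algebraMap ℚ Qb)) c P' =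
        MvPolynomial.eval₂ (j.comp κ) ((T.map j) *ᵥ c) P)
    (θ' : RF K d →+* Ω) (hθ' : ∀ a, θ' (algebraMap K (RF K d) a) = (ι.comp κ) a)
    (g₀ : G) (hg₀ : α g₀ = 1) (c : Fin d → L)
    (hc : (T.map ι) *ᵥ (fun i => algebraMap L Ω (c i)) =
      ((N g₀⁻¹).map (ι.comp κ)) *ᵥ (fun i => θ' (xv K i))) :
    algebraMap L Ω (MvPolynomial.eval₂ φ c P') = θ' (algebraMap _ (RF K d) P) := by
  have h1 : algebraMap L Ω (MvPolynomial.eval₂ φ c P') =
      MvPolynomial.eval₂ ((algebraMap L Ω).comp φ) (fun i => algebraMap L Ω (c i)) P' :=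
    MvPolynomial.hom_eval₂ _ _ _ _
  have h2 : (algebraMap L Ω).comp φ = ι.comp (algebraMap ℚ Qb) := RingHom.ext_rat _ _
  have h3 := eval_invariant2 hβ hN hP (ι.comp κ) g₀⁻¹ (fun i => θ' (xv K i))
  have h4 : (ι.comp κ).comp ((α g₀⁻¹ : K ≃ₐ[ℚ] K) : K →+* K) = ι.comp κ := by
    rw [map_inv, hg₀, inv_one]
    rfl
  rw [h4] at h3
  rw [h1, h2, hP' Ω ι, hc, h3, STrGS_eval θ' (ι.comp κ) hθ']

/-- a homomorphism at a polynomial in `ξ`, `η` -/
private theorem STrGS_hom {m : ℕ} {F : Type u} [Field F] [Algebra ℚ F] (ξ : Fin m → F) (η : F)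
    {L : Type*} [Field L] (ψ : F →+* L) (φ : ℚ →+* L) (q : (MvPolynomial (Fin m) ℚ)[X]) :
    evP φ (fun j => ψ (ξ j)) (ψ η) q = ψ (evP (algebraMap ℚ F) ξ η q) := by
  have h : evP φ (fun j => ψ (ξ j)) (ψ η) = ψ.comp (evP (algebraMap ℚ F) ξ η) := by
    unfold evP
    apply Polynomial.ringHom_ext'
    · apply MvPolynomial.ringHom_ext'
      · exact RingHom.ext_rat _ _
      · intro i
        simp
    · simp
  exact RingHom.congr_fun h q

/-- the derivative does not vanish at the generic point -/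
private theorem STrGS_der {m : ℕ} {f : (MvPolynomial (Fin m) ℚ)[X]} {F : Type u} [Field F]
    [Algebra ℚ F] {ξ : Fin m → F} {η : F} (h : Generic f F ξ η) :
    evP (algebraMap ℚ F) ξ η (derivative f) ≠ 0 := by
  intro h0
  have h1 := h.dvd _ h0
  have h2 : f.natDegree ≠ 0 := by
    intro h3
    apply h.deg
    rw [Polynomial.eq_C_of_natDegree_eq_zero h3, derivative_C]
  exact h.deg (Polynomial.eq_zero_of_dvd_of_natDegree_lt h1
    (Polynomial.natDegree_derivative_lt h2))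

private theorem STrGS_main {K : Type} [Field K] [Algebra ℚ K] [FiniteDimensional ℚ K]
    [IsGalois ℚ K] {G : Type} [Group G] [Finite G] {α : G →* (K ≃ₐ[ℚ] K)}
    (hα : Function.Surjective α) (hG : RelGrunwaldS α) {d : ℕ}
    (β : G →* (RF K d ≃ₐ[ℚ] RF K d)) (hβ : SemiLin α β) {m : ℕ}
    {f g : (MvPolynomial (Fin m) ℚ)[X]} {F : Type u} [Field F] [Algebra ℚ F] {ξ : Fin m → F} {η : F}
    (h : Generic f F ξ η) (hg : evP (algebraMap ℚ F) ξ η g ≠ 0) {a : ℕ}
    (e : RF F a ≃ₐ[ℚ] fixF β)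
    (S : Finset Pl) (hS : none ∈ S) (P : ∀ v ∈ S, Pts f g (emb v)) {ε : ℝ} (hε : 0 < ε) :
    ∃ p : Pts f g (RingHom.id ℚ), ∀ v (hv : v ∈ S),
      (∀ j, ‖(mapPts (emb v) p).1.1 j - (P v hv).1.1 j‖ < ε) ∧
        ‖(mapPts (emb v) p).1.2 - (P v hv).1.2‖ < ε := by
  classical
  have halg : Algebra.IsAlgebraic ℚ Qb := AlgebraicClosure.isAlgebraic ℚ
  obtain ⟨N, hN, hN1, hNm⟩ := exists_N β hβ
  obtain ⟨D, C, hD0, hDi, hCi, hDC⟩ := exists_polys2 β hβ (κ := Option (Fin m))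
    (fun i => e (algebraMap F (RF F a) (i.elim η ξ)))
  -- generic local points
  choose θ hθ hθξ hθη using fun (v : Pl) (hv : v ∈ S) => gen_point (ball_uncountable v) (emb v) h
    (P v hv) a (half_pos hε)
  have hchar : ∀ v : Pl, CharZero (Om v) := fun v =>
    charZero_of_injective_algebraMap (algebraMap (Cpl v) (Om v)).injective
  have hι : ∀ v : Pl, Nonempty (Qb →+* Om v) := fun v => by
    let _ : Algebra ℚ (Om v) := (Rat.castHom (Om v)).toAlgebra
    exact ⟨(IsAlgClosed.lift : Qb →ₐ[ℚ] Om v).toRingHom⟩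
  obtain ⟨ι, -⟩ : ∃ ι : ∀ v : Pl, Qb →+* Om v, True := ⟨fun v => (hι v).some, trivial⟩
  obtain ⟨κ, -⟩ : ∃ κ : K →+* Qb, True := ⟨(IsAlgClosed.lift : K →ₐ[ℚ] Qb).toRingHom, trivial⟩
  have hlam : ∀ (v : Pl) (hv : v ∈ S) (c : ℚ), ((ι v).comp κ) (algebraMap ℚ K c) =
      algebraMap (Cpl v) (Om v) (θ v hv (algebraMap ℚ (RF F a) c)) := fun v hv c =>
    RingHom.congr_fun (RingHom.ext_rat (((ι v).comp κ).comp (algebraMap ℚ K))
      (((algebraMap (Cpl v) (Om v)).comp (θ v hv)).comp (algebraMap ℚ (RF F a)))) c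
  choose θ' ρ' hρ' hθ' hθK hτ' using fun (v : Pl) (hv : v ∈ S) =>
    loc_hom2 hα β hβ e (L := Cpl v) (Ω := Om v) (θ v hv) ((ι v).comp κ) (hlam v hv)
  obtain ⟨ρ, hρdef⟩ : ∃ ρ : ∀ v : Pl, (Om v ≃ₐ[Cpl v] Om v) →* G,
      ∀ v (hv : v ∈ S), ρ v = ρ' v hv ∧ True := by
    refine ⟨fun v => if hv : v ∈ S then ρ' v hv else 1, fun v hv => ⟨?_, trivial⟩⟩
    exact dif_pos hv
  have hρ : ∀ v ∈ S, Cts (ρ v) := fun v hv => by
    rw [(hρdef v hv).1]
    exact hρ' v hv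
  have hτ : ∀ v (hv : v ∈ S) τ x, τ (θ' v hv x) = θ' v hv (β (ρ v τ) x) := fun v hv τ x => by
    rw [(hρdef v hv).1]
    exact hτ' v hv τ x
  have hcomp : ∀ (v : Pl) (_ : v ∈ S) (τ : Om v ≃ₐ[Cpl v] Om v) (x : K),
      τ (ι v (κ x)) = ι v (κ (α (ρ v τ) x)) := by
    intro v hv τ x
    have h1 := hτ v hv τ (algebraMap K (RF K d) x)
    rw [hβ.coeff, hθK v hv, hθK v hv] at h1
    exact h1
  -- the Grunwald problem
  obtain ⟨ρ₀, hρ₀, hρκ, hres⟩ := hG S hS κ ι ρ hρ hcomp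
  obtain ⟨T, hTd, hT⟩ := hilbert90_semi (k := ℚ) (Ω := Qb) hρ₀ κ hρκ N hN1 hNm
  have hc : ∀ v : Pl, ∃ (g₀ : G) (c : Fin d → Cpl v), ∀ hv : v ∈ S, α g₀ = 1 ∧
      (T.map (ι v)) *ᵥ (fun i => algebraMap (Cpl v) (Om v) (c i)) =
        ((N g₀⁻¹).map ((ι v).comp κ)) *ᵥ (fun i => θ' v hv (xv K i)) := by
    intro v
    by_cases hv : v ∈ S
    · obtain ⟨g₀, hg₀, hg₀'⟩ := hres v hv
      have h1 := hchar v
      obtain ⟨c, hc⟩ := loc_param2 (L := Cpl v) (Ω := Om v) hN1 hNm κ (ι v) (ρ := ρ v)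
        (hcomp v hv) (ρ₀ := ρ₀) (g₀ := g₀) hg₀ hg₀' hTd hT (w := fun i => θ' v hv (xv K i)) (by
          intro τ i
          rw [hτ v hv τ, hN, map_sum]
          refine Finset.sum_congr rfl fun j _ => ?_
          rw [map_mul, hθK v hv]
          rfl)
      exact ⟨g₀, c, fun _ => ⟨hg₀, hc⟩⟩
    · exact ⟨1, 0, fun h => absurd h hv⟩
  choose g₀ c hc using hc
  -- the twisted polynomials
  obtain ⟨D', hD'⟩ := exists_twist2 hβ hN hDi hρκ hT
  choose C' hC' using fun i : Option (Fin m) => exists_twist2 hβ hN (fun g => hCi g i) hρκ hT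
  have hkD : ∀ v (hv : v ∈ S), algebraMap (Cpl v) (Om v)
      (MvPolynomial.eval₂ (emb v) (c v) D') = θ' v hv (algebraMap _ (RF K d) D) := fun v hv =>
    STrGS_place hβ hN hDi (emb v) κ (ι v) hD' (θ' v hv) (hθK v hv) (g₀ v) (hc v hv).1 (c v)
      (hc v hv).2
  have hkC : ∀ v (hv : v ∈ S), ∀ i, algebraMap (Cpl v) (Om v)
      (MvPolynomial.eval₂ (emb v) (c v) (C' i)) = θ' v hv (algebraMap _ (RF K d) (C i)) :=
    fun v hv i =>
    STrGS_place hβ hN (fun g => hCi g i) (emb v) κ (ι v) (hC' i) (θ' v hv) (hθK v hv) (g₀ v)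
      (hc v hv).1 (c v) (hc v hv).2
  have hDne : algebraMap (MvPolynomial (Fin d) K) (RF K d) D ≠ 0 := fun h1 =>
    hD0 ((IsFractionRing.injective (MvPolynomial (Fin d) K) (RF K d)) (by rw [h1, map_zero]))
  have hDv : ∀ v ∈ S, MvPolynomial.eval₂ (emb v) (c v) D' ≠ 0 := by
    intro v hv h1
    have h2 := hkD v hv
    rw [h1, map_zero] at h2
    exact hDne ((map_eq_zero (θ' v hv)).1 h2.symm)
  have hquo : ∀ v (hv : v ∈ S), ∀ i, MvPolynomial.eval₂ (emb v) (c v) (C' i) /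
      MvPolynomial.eval₂ (emb v) (c v) D' =
        θ v hv (algebraMap F (RF F a) (i.elim η ξ)) := by
    intro v hv i
    rw [div_eq_iff (hDv v hv)]
    apply (algebraMap (Cpl v) (Om v)).injective
    rw [map_mul, hkC v hv, hkD v hv, ← hθ' v hv, ← hDC i, map_mul, mul_comm]
  have hpt : ∀ v (hv : v ∈ S), (fun j => MvPolynomial.eval₂ (emb v) (c v) (C' (some j)) /
      MvPolynomial.eval₂ (emb v) (c v) D') = fun j => θ v hv (algebraMap F (RF F a) (ξ j)) :=
    fun v hv => funext fun j => hquo v hv (some j)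
  have hpt' : ∀ v (hv : v ∈ S), MvPolynomial.eval₂ (emb v) (c v) (C' none) /
      MvPolynomial.eval₂ (emb v) (c v) D' = θ v hv (algebraMap F (RF F a) η) :=
    fun v hv => hquo v hv none
  have hev : ∀ (v : Pl) (hv : v ∈ S) (q : (MvPolynomial (Fin m) ℚ)[X]),
      evP (algebraMap ℚ F) ξ η q ≠ 0 →
      evP (emb v) (fun j => θ v hv (algebraMap F (RF F a) (ξ j)))
        (θ v hv (algebraMap F (RF F a) η)) q ≠ 0 := by
    intro v hv q hq
    have h1 := STrGS_hom ξ η ((θ v hv).comp (algebraMap F (RF F a))) (emb v) q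
    simp only [RingHom.comp_apply] at h1
    rw [h1]
    exact fun h2 => hq ((map_eq_zero (algebraMap F (RF F a))).1 ((map_eq_zero (θ v hv)).1 h2))
  refine STrGS_core S hS P D' (C' none) (fun j => C' (some j)) c ?_ ?_
  · intro v hv
    have hF : STrGS_F (emb v) D' (C' none) (fun j => C' (some j)) (c v) =
        ((fun j => θ v hv (algebraMap F (RF F a) (ξ j))), θ v hv (algebraMap F (RF F a) η)) :=
      Prod.ext (hpt v hv) (hpt' v hv)
    refine ⟨hDv v hv, ?_⟩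
    rw [hF]
    exact ⟨fun j => (hθξ v hv j).trans (by linarith), (hθη v hv).trans (by linarith),
      hev v hv _ (STrGS_der h), hev v hv _ hg⟩
  · intro r hr
    have hval : ∀ {Q : MvPolynomial (Fin d) K} {Q' : MvPolynomial (Fin d) ℚ},
        (∀ (L : Type) [Field L] (j : Qb →+* L) (c : Fin d → L),
          MvPolynomial.eval₂ (j.comp (algebraMap ℚ Qb)) c Q' =
            MvPolynomial.eval₂ (j.comp κ) ((T.map j) *ᵥ c) Q) →
        MvPolynomial.eval₂ κ (T *ᵥ fun i => algebraMap ℚ Qb (r i)) Q =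
          algebraMap ℚ Qb (MvPolynomial.eval₂ (RingHom.id ℚ) r Q') := by
      intro Q Q' hQ
      have h1 := hQ Qb (RingHom.id Qb) (fun i => algebraMap ℚ Qb (r i))
      have h2 : T.map (RingHom.id Qb) = T := by
        ext i j
        rfl
      rw [RingHom.id_comp, RingHom.id_comp, h2] at h1
      rw [← h1, MvPolynomial.hom_eval₂, RingHom.comp_id]
    have hDr : MvPolynomial.eval₂ κ (T *ᵥ fun i => algebraMap ℚ Qb (r i)) D ≠ 0 := by
      rw [hval hD']
      exact fun h1 => hr ((map_eq_zero (algebraMap ℚ Qb)).1 h1)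
    have hψ : evP (algebraMap ℚ (RF K d))
        (fun j => ((e (algebraMap F (RF F a) (ξ j)) : fixF β) : RF K d))
        ((e (algebraMap F (RF F a) η) : fixF β) : RF K d) f = 0 := by
      have h1 := STrGS_hom ξ η (((fixF β).val : fixF β →+* RF K d).comp
        (((e : RF F a ≃ₐ[ℚ] fixF β) : RF F a →+* fixF β).comp (algebraMap F (RF F a))))
        (algebraMap ℚ (RF K d)) f
      rw [h.zero, map_zero] at h1
      exact h1
    have h3 := f_vanish2 (f := f) (D := D) (C' := C none) (C := fun j => C (some j))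
      (fun j => hDC (some j)) (hDC none) hψ κ
      (T *ᵥ fun i => algebraMap ℚ Qb (r i)) hDr
    have h5 : κ.comp (algebraMap ℚ K) = algebraMap ℚ Qb := RingHom.ext_rat _ _
    rw [hval hD', hval (hC' none), h5] at h3
    have h4 : (fun j => MvPolynomial.eval₂ κ
        (T *ᵥ fun i => algebraMap ℚ Qb (r i)) (C (some j)) /
        algebraMap ℚ Qb (MvPolynomial.eval₂ (RingHom.id ℚ) r D')) = fun j => algebraMap ℚ Qb
        (MvPolynomial.eval₂ (RingHom.id ℚ) r (C' (some j)) /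
          MvPolynomial.eval₂ (RingHom.id ℚ) r D') := by
      funext j
      rw [hval (hC' (some j)), map_div₀]
    rw [h4, ← map_div₀, evP_comp] at h3
    exact (map_eq_zero (algebraMap ℚ Qb)).1 h3

/-- The strong form of weak approximation: local points at the places of a finite set `S` containing the
real place only. -/
theorem transferS {K : Type} [Field K] [Algebra ℚ K] [FiniteDimensional ℚ K] [IsGalois ℚ K]
    {G : Type} [Group G] [Finite G] {α : G →* (K ≃ₐ[ℚ] K)} (hα : Function.Surjective α)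
    (hG : RelGrunwaldS α) {d : ℕ} (β : G →* (RF K d ≃ₐ[ℚ] RF K d)) (hβ : SemiLin α β) {m : ℕ}
    {f g : (MvPolynomial (Fin m) ℚ)[X]} {F : Type u} [Field F] [Algebra ℚ F] {ξ : Fin m → F} {η : F}
    (h : Generic f F ξ η) (hg : evP (algebraMap ℚ F) ξ η g ≠ 0) (hF : StablyIso ℚ F (fixF β))
    (S : Finset Pl) (hS : none ∈ S) (P : ∀ v ∈ S, Pts f g (emb v)) {ε : ℝ} (hε : 0 < ε) :
    ∃ p : Pts f g (RingHom.id ℚ), ∀ v (hv : v ∈ S),
      (∀ j, ‖(mapPts (emb v) p).1.1 j - (P v hv).1.1 j‖ < ε) ∧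
        ‖(mapPts (emb v) p).1.2 - (P v hv).1.2‖ < ε := by
  obtain ⟨a, b, ⟨e₁⟩⟩ := hF
  obtain ⟨d', β', hβ', ⟨e₂⟩⟩ := tr_norm2 α β hβ b
  exact STrGS_main hα hG β' hβ' h hg (e₁.trans e₂) S hS P hε

end DC83
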