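import Pool.Agent.H.MP_83e36b_nt.tw.HDef
import Pool.Agent.H.MP_83e36b_nt.tw.STrGS

/-! The strong form of weak approximation at a finite set of places. -/

set_option autoImplicit false

open Polynomial SpinWA Topology

namespace DC83

open CM83 NR83 WA83

universe u

theorem wa_plS {m : ℕ} {f g : (MvPolynomial (Fin m) ℚ)[X]} (h : HasseWA f g) (S : Finset Pl)
    (hS : none ∈ S) (P : ∀ v ∈ S, Pts f g (emb v)) {δ : ℝ} (hδ : 0 < δ) :
    ∃ p : Pts f g (RingHom.id ℚ), ∀ v (hv : v ∈ S),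
      (∀ j, ‖emb v (p.1.1 j) - (P v hv).1.1 j‖ < δ) ∧ ‖emb v p.1.2 - (P v hv).1.2‖ < δ := by
  classical
  have hmem : ∀ (p : ℕ) [hp : Fact p.Prime], p ∈ S.eraseNone.image (fun q : Nat.Primes => (q : ℕ)) →
      (some ⟨p, hp.out⟩ : Pl) ∈ S := by
    intro p hp h1
    obtain ⟨q, hq, rfl⟩ := Finset.mem_image.1 h1
    exact Finset.mem_eraseNone.1 hq
  obtain ⟨p, hp, hp'⟩ := h (P none hS) (S.eraseNone.image fun q : Nat.Primes => (q : ℕ))
    (fun p _ hp => P (some ⟨p, Fact.out⟩) (hmem p hp)) δ hδ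
  refine ⟨p, fun v hv => ?_⟩
  cases v with
  | none => exact hp
  | some q =>
    have : Fact (Nat.Prime (q : ℕ)) := ⟨q.2⟩
    exact hp' (q : ℕ) (Finset.mem_image.2 ⟨q, Finset.mem_eraseNone.2 hv, rfl⟩)

attribute [local instance 2000] OreLocalization.instAlgebra IntermediateField.algebra' Algebra.id

/-- from the relative Grunwald problem to weak approximation -/
theorem transfer_waS {K : Type} [Field K] [Algebra ℚ K] [FiniteDimensional ℚ K] [IsGalois ℚ K]
    {G : Type} [Group G] [Finite G] {α : G →* (K ≃ₐ[ℚ] K)} (hα : Function.Surjective α)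
    (hG : RelGrunwaldS α) {d : ℕ} (β : G →* (RF K d ≃ₐ[ℚ] RF K d)) (hβ : SemiLin α β) {m : ℕ}
    {f g : (MvPolynomial (Fin m) ℚ)[X]} {F : Type u} [Field F] [Algebra ℚ F] {ξ : Fin m → F} {η : F}
    (h : Generic f F ξ η) (hg : evP (algebraMap ℚ F) ξ η g ≠ 0) (hF : StablyIso ℚ F (fixF β)) :
    HasseWA f g := by
  classical
  intro A S B ε hε
  -- the places
  let T : Finset Pl := insert none
    (((S.filter Nat.Prime).attach.image fun p => (⟨p.1, (Finset.mem_filter.1 p.2).2⟩ : Nat.Primes)).image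
      (some : Nat.Primes → Pl))
  have hT : ∀ q : Nat.Primes, (some q : Pl) ∈ T ↔ (q : ℕ) ∈ S := by
    intro q
    constructor
    · intro h1
      rcases Finset.mem_insert.1 h1 with h2 | h2
      · exact absurd h2 (by simp)
      · obtain ⟨q', hq', h3⟩ := Finset.mem_image.1 h2
        obtain ⟨p, _, rfl⟩ := Finset.mem_image.1 hq'
        have h4 := Option.some_injective _ h3
        rw [← h4]
        exact (Finset.mem_filter.1 p.2).1
    · intro h1
      refine Finset.mem_insert_of_mem (Finset.mem_image.2 ⟨q, Finset.mem_image.2 ?_, rfl⟩)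
      exact ⟨⟨(q : ℕ), Finset.mem_filter.2 ⟨h1, q.2⟩⟩, Finset.mem_attach _ _, rfl⟩
  let P : ∀ v ∈ T, Pts f g (emb v) := fun v =>
    match v with
    | none => fun _ => A
    | some q => fun hv => by
        have : Fact (Nat.Prime (q : ℕ)) := ⟨q.2⟩
        exact B (q : ℕ) ((hT q).1 hv)
  obtain ⟨p, hp⟩ := transferS hα hG β hβ h hg hF T (Finset.mem_insert_self _ _) P hε
  refine ⟨p, hp none (Finset.mem_insert_self _ _), fun q hq hqS => ?_⟩
  exact hp (some ⟨q, hq.out⟩) ((hT ⟨q, hq.out⟩).2 hqS)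

end DC83
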