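import Pool.Agent.H.MP_83e36b_nt.tw.RevS
import Pool.Agent.H.MP_83e36b_nt.tw.Core3S
import Pool.Agent.H.MP_83e36b_nt.tw.WaPlS
import Pool.Agent.H.MP_83e36b_nt.td.ResF

/-! The first step of the towers, and the step with the double covers. -/

set_option autoImplicit false

open Polynomial SpinWA

namespace DC83

open CM83 NR83 WA83

/-- the relative Grunwald problem for an isomorphism is trivial -/
theorem rel_galS {K : Type} [Field K] [Algebra ℚ K] [FiniteDimensional ℚ K] [IsGalois ℚ K]
    {G : Type} [Group G] (α : G →* (K ≃ₐ[ℚ] K)) (h : Function.Bijective α) : RelGrunwaldS α := by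
  intro S _ κ ι ρ _ hκ
  obtain ⟨r, hr, hrκ⟩ := exists_resK (K := K) κ
  let e : G ≃* (K ≃ₐ[ℚ] K) := MulEquiv.ofBijective α h
  have he : ∀ s, α (e.symm s) = s := fun s => e.apply_symm_apply s
  refine ⟨e.symm.toMonoidHom.comp r, hr.comp _, fun τ x => ?_, fun v hv => ⟨1, map_one _, ?_⟩⟩
  · have h1 : α ((e.symm.toMonoidHom.comp r) τ) = r τ := he _
    rw [h1]
    exact (hrκ τ x).symm
  · intro τ τ₀ hτ
    rw [one_mul, inv_one, mul_one]
    apply h.1
    have h1 : α ((e.symm.toMonoidHom.comp r) τ₀) = r τ₀ := he _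
    rw [h1]
    refine AlgEquiv.ext fun x => ?_
    apply κ.injective
    apply (ι v).injective
    rw [hrκ τ₀ x, hτ, hκ v hv τ x]

theorem wa_galS {K : Type} [Field K] [Algebra ℚ K] [FiniteDimensional ℚ K] [IsGalois ℚ K]
    {G : Type} [Group G] [Finite G] (α : G →* (K ≃ₐ[ℚ] K)) (h : Function.Bijective α) :
    HasseWAFor α := by
  intro d β hβ r f g F _ _ ξ η hgen hg hF
  exact transfer_waS h.2 (rel_galS α h) β hβ hgen hg
    (by
      convert hF
      exact Subsingleton.elim _ _)

theorem wa_dblS {K : Type} [Field K] [Algebra ℚ K] [FiniteDimensional ℚ K] [IsGalois ℚ K]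
    {G A : Type} [Group G] [Finite G] [Group A] [Finite A] (γ : A →* (K ≃ₐ[ℚ] K))
    (hγs : Function.Surjective γ) (q : G →* A) (hq : Function.Surjective q) {n m : ℕ}
    (hn : 4 ≤ n) (φ : G →* dAlt (n + m)) (hφ : KerTwoAlt q φ) (hγ : HasseWAFor γ) :
    HasseWAFor (γ.comp q) := by
  intro d β hβ r f g F _ _ ξ η hgen hg hF
  have hs : Function.Surjective (γ.comp q) := hγs.comp hq
  exact transfer_waS hs (rel_grunS hn hq hφ γ (rev_transferS hγs hγ)) β hβ hgen hg
    (by
      convert hF
      exact Subsingleton.elim _ _)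

end DC83
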