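import Pool.Agent.H.MP_83e36b_nt.tw.STow
import Pool.Agent.H.MP_83e36b_nt.tw.StepsS
import Pool.Agent.H.MP_83e36b_nt.tw.StAS
import Pool.Agent.H.MP_83e36b_nt.tw.SymC

/-! The main theorem. -/

set_option autoImplicit false

open Polynomial

namespace DC83

open CM83 NR83 WA83

private theorem FinS_inst {F₁ F₂ : Type} [Field F₁] [Field F₂] (a₁ a₁' : Algebra ℚ F₁)
    (a₂ a₂' : Algebra ℚ F₂) (h : @StablyIso ℚ _ F₁ _ a₁ F₂ _ a₂) :
    @StablyIso ℚ _ F₁ _ a₁' F₂ _ a₂' := by
  obtain rfl : a₁ = a₁' := Subsingleton.elim _ _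
  obtain rfl : a₂ = a₂' := Subsingleton.elim _ _
  exact h

theorem wa_symS {K : Type} [Field K] [Algebra ℚ K] {G A : Type} [Group G] [Finite G] [Group A]
    (γ : A →* (K ≃ₐ[ℚ] K)) (q : G →* A) (hq : Function.Surjective q) {J I : Type} [Finite J]
    [Finite I] [MulAction G J] [MulAction A I] {p : J → I} (h : SymKer q p)
    (hγ : HasseWAFor γ) : HasseWAFor (γ.comp q) := by
  intro d β hβ m f g F _ _ ξ η hgen hg hF
  have hA : Finite A := Finite.of_surjective q hq
  obtain ⟨e, δ, hδ⟩ := exists_semi γ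
  exact hγ e δ hδ m f g F ξ η hgen hg (hF.trans (FinS_inst _ _ _ _ (red_sym q hq h γ β hβ δ hδ)))

theorem main_tower {K : Type} [Field K] [Algebra ℚ K] {G : Type} [Group G] [Finite G]
    (α : G →* (K ≃ₐ[ℚ] K)) (hfix : fixF α = ⊥) (hα : SymTower α) : HasseWAFor α := by
  rename_i hfin
  revert hfin hfix
  induction hα with
  | gal α h =>
    intro hfin hfix
    obtain ⟨h1, h2, h3⟩ := gal_of_fix hfix
    exact wa_galS α h
  | sym γ q hq p h hγ ih =>
    intro hfin hfix
    rw [fixF_comp γ q hq] at hfix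
    have hA := Finite.of_surjective q hq
    exact wa_symS γ q hq h (ih hfix)
  | alt γ q hq hN hγ ih =>
    intro hfin hfix
    rw [fixF_comp γ q hq] at hfix
    have hA := Finite.of_surjective q hq
    exact wa_altS γ q hq (Or.inl hN) (ih hfix)
  | dbl γ q hq n m hn φ hφ hγ ih =>
    intro hfin hfix
    rw [fixF_comp γ q hq] at hfix
    have hA := Finite.of_surjective q hq
    obtain ⟨h1, h2, h3⟩ := gal_of_fix hfix
    exact wa_dblS γ h3 q hq hn φ hφ (ih hfix)

end DC83
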