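import Pool.Agent.H.MP_83e36b_nt.dc.MDef

/-! The Hasse principle and weak approximation over `ℚ`. -/

set_option autoImplicit false

open Polynomial

namespace DC83

open CM83 NR83 WA83

/-- The Hasse principle (only the real place is needed) and weak approximation for the variety
`X : f(x, y) = 0`, `∂f/∂y ≠ 0`, `g ≠ 0` over `ℚ`: for every real point `A` of `X`, every finite set `S` of
primes, all `p`-adic points `B p` of `X`, `p ∈ S`, and every `ε > 0` there is a rational point `P` of `X`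
whose coordinates are `ε`-near to those of `A` and of the `B p`, `p ∈ S`.  That is, `X(ℚ)` is dense in
`X(ℝ) × ∏_{p ∈ S} X(ℚ_p)` for every finite set `S` of primes. -/
def HasseWA {m : ℕ} (f g : (MvPolynomial (Fin m) ℚ)[X]) : Prop :=
  ∀ (A : Pts f g (algebraMap ℚ ℝ)) (S : Finset ℕ)
    (B : ∀ (p : ℕ) [Fact p.Prime], p ∈ S → Pts f g (algebraMap ℚ ℚ_[p])) (ε : ℝ), 0 < ε →
    ∃ P : Pts f g (RingHom.id ℚ),
      ((∀ j, |(P.1.1 j : ℝ) - A.1.1 j| < ε) ∧ |(P.1.2 : ℝ) - A.1.2| < ε) ∧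
      ∀ (p : ℕ) [Fact p.Prime] (hp : p ∈ S),
        (∀ j, ‖(P.1.1 j : ℚ_[p]) - (B p hp).1.1 j‖ < ε) ∧
          ‖(P.1.2 : ℚ_[p]) - (B p hp).1.2‖ < ε

/-- `HasseWA` for the homogeneous spaces given by the homomorphism `α : G → Gal(K/ℚ)`: for all
faithful semilinear actions of `G` on `K(x_1, ..., x_d)` over its action on `K`, and all smooth
hypersurface models `X : f(u, y) = 0`, `f_y(u, y) g(u, y) ≠ 0` of a field stably isomorphic to
`K(x_1, ..., x_d)^G`. -/
def HasseWAFor {K : Type} [Field K] [Algebra ℚ K] {G : Type} [Group G]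
    (α : G →* (K ≃ₐ[ℚ] K)) : Prop :=
  ∀ (d : ℕ) (β : G →* (RF K d ≃ₐ[ℚ] RF K d)), SemiLin α β →
    ∀ (m : ℕ) (f g : (MvPolynomial (Fin m) ℚ)[X]) (F : Type) [Field F] [Algebra ℚ F]
      (ξ : Fin m → F) (η : F), Generic f F ξ η → evP (algebraMap ℚ F) ξ η g ≠ 0 →
      StablyIso ℚ F (fixF β) → HasseWA f g

end DC83
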