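import Pool.Agent.H.MP_83e36b_nt.tw.H90L
import Pool.Agent.H.MP_83e36b_nt.td.STrB
import Pool.Agent.H.MP_83e36b_nt.dc.TrDb

/-! The generic point of the twist given by a homomorphism of the Galois group of a local field. -/

set_option autoImplicit false

open Matrix Polynomial

namespace DC83

open CM83 NR83

/-- an algebraic element is algebraic over a countable subfield -/
private theorem LGen_cnt {L : Type} [Field L] [CharZero L] {Ω : Type} [Field Ω] [Algebra L Ω]
    [Algebra.IsAlgebraic L Ω] {ι : Type} [Finite ι] (t : ι → Ω) :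
    ∃ E : IntermediateField ℚ L, Countable E ∧ ∀ i, IsAlgebraic E (t i) := by
  obtain ⟨S, hS⟩ : ∃ S : Set L, S = ⋃ i, Set.range fun n => (minpoly L (t i)).coeff n := ⟨_, rfl⟩
  have hSc : S.Countable := by
    rw [hS]
    exact Set.countable_iUnion fun _ => Set.countable_range _
  refine ⟨IntermediateField.adjoin ℚ S, ?_, fun i => ?_⟩
  · rw [← Cardinal.mk_le_aleph0_iff]
    refine (IntermediateField.cardinalMk_adjoin_le ℚ S).trans ?_
    refine max_le (max_le ?_ ?_) le_rfl
    · exact Cardinal.mk_le_aleph0_iff.2 inferInstance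
    · exact Cardinal.mk_le_aleph0_iff.2 hSc.to_subtype
  · have h1 : minpoly L (t i) ∈ Polynomial.lifts
        (algebraMap (IntermediateField.adjoin ℚ S) L) := by
      rw [Polynomial.lifts_iff_coeff_lifts]
      intro n
      refine ⟨⟨(minpoly L (t i)).coeff n, IntermediateField.subset_adjoin ℚ S ?_⟩, rfl⟩
      rw [hS]
      exact Set.mem_iUnion.2 ⟨i, n, rfl⟩
    obtain ⟨q, hq⟩ := (Polynomial.mem_lifts _).1 h1
    have hint : IsIntegral L (t i) := (Algebra.IsAlgebraic.isAlgebraic (R := L) (t i)).isIntegral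
    refine ⟨q, fun h0 => minpoly.ne_zero hint ?_, ?_⟩
    · rw [← hq, h0, Polynomial.map_zero]
    · rw [← Polynomial.aeval_map_algebraMap L, hq, minpoly.aeval]

/-- a regular linear change of algebraically independent elements -/
private theorem LGen_lin {E : Type} [Field E] {Ω : Type} [Field Ω] [Algebra E Ω] {d : ℕ}
    (T : Matrix (Fin d) (Fin d) E) (hT : T.det ≠ 0) {c : Fin d → Ω} (hc : AlgebraicIndependent E c) :
    AlgebraicIndependent E fun i => ∑ j, algebraMap E Ω (T i j) * c j := by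
  obtain ⟨φ, hφ⟩ : ∃ φ : MvPolynomial (Fin d) E →ₐ[E] MvPolynomial (Fin d) E,
      φ = MvPolynomial.aeval fun i => ∑ j, MvPolynomial.C (T i j) * MvPolynomial.X j := ⟨_, rfl⟩
  obtain ⟨ψ, hψ⟩ : ∃ ψ : MvPolynomial (Fin d) E →ₐ[E] MvPolynomial (Fin d) E,
      ψ = MvPolynomial.aeval fun i => ∑ j, MvPolynomial.C (T⁻¹ i j) * MvPolynomial.X j := ⟨_, rfl⟩
  have hφX : ∀ i, φ (MvPolynomial.X i) = ∑ j, MvPolynomial.C (T i j) * MvPolynomial.X j := by
    intro i
    rw [hφ, MvPolynomial.aeval_X]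
  have hψX : ∀ i, ψ (MvPolynomial.X i) = ∑ j, MvPolynomial.C (T⁻¹ i j) * MvPolynomial.X j := by
    intro i
    rw [hψ, MvPolynomial.aeval_X]
  have hψC : ∀ a, ψ (MvPolynomial.C a) = MvPolynomial.C a := fun a => ψ.commutes a
  have h1 : ψ.comp φ = AlgHom.id E _ := by
    refine MvPolynomial.algHom_ext fun i => ?_
    rw [AlgHom.comp_apply, hφX, map_sum, AlgHom.id_apply]
    have h2 : ∀ j, ψ (MvPolynomial.C (T i j) * MvPolynomial.X j) =
        ∑ l, MvPolynomial.C (T i j * T⁻¹ j l) * MvPolynomial.X l := by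
      intro j
      rw [map_mul, hψC, hψX, Finset.mul_sum]
      refine Finset.sum_congr rfl fun l _ => ?_
      rw [← mul_assoc, MvPolynomial.C_mul]
    rw [Finset.sum_congr rfl fun j _ => h2 j, Finset.sum_comm]
    have h3 : ∀ l, ∑ j, (MvPolynomial.C (T i j * T⁻¹ j l) * MvPolynomial.X l :
        MvPolynomial (Fin d) E) = MvPolynomial.C ((1 : Matrix (Fin d) (Fin d) E) i l) *
          MvPolynomial.X l := by
      intro l
      rw [← Finset.sum_mul, ← map_sum, ← Matrix.mul_apply,
        Matrix.mul_nonsing_inv T (Ne.isUnit hT)]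
    rw [Finset.sum_congr rfl fun l _ => h3 l, Finset.sum_eq_single i]
    · rw [Matrix.one_apply_eq, MvPolynomial.C_1, one_mul]
    · intro l _ hl
      rw [Matrix.one_apply_ne' hl, MvPolynomial.C_0, zero_mul]
    · intro hi
      exact absurd (Finset.mem_univ i) hi
  have h4 : (MvPolynomial.aeval fun i => ∑ j, algebraMap E Ω (T i j) * c j) =
      (MvPolynomial.aeval c).comp φ := by
    refine MvPolynomial.algHom_ext fun i => ?_
    rw [AlgHom.comp_apply, hφX, MvPolynomial.aeval_X, map_sum]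
    refine Finset.sum_congr rfl fun j _ => ?_
    rw [map_mul, MvPolynomial.aeval_C, MvPolynomial.aeval_X]
  show Function.Injective (MvPolynomial.aeval fun i => ∑ j, algebraMap E Ω (T i j) * c j)
  rw [h4, AlgHom.coe_comp]
  refine Function.Injective.comp hc ?_
  intro p q hpq
  have h5 := congrArg ψ hpq
  have h6 : ∀ p, ψ (φ p) = p := fun p => by
    rw [← AlgHom.comp_apply, h1, AlgHom.id_apply]
  rwa [h6, h6] at h5

/-- Proof: `exists_N` (td/STrB.lean): `N`; `hilbert90_loc`: `T`.  The entries of `T` are algebraic over a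
countable subfield `E₁` of `L` (generated over `ℚ` by the coefficients of their minimal polynomials).
`exists_algInd` (dc/TrDb.lean) for `E₁`: `c : Fin d → L` algebraically independent over `E₁`, so also
over the algebraic closure `E₂` of `E₁` in `Ω`, which contains the entries of `T` and of `T⁻¹` and the
image of `lam` (`K` is algebraic over `ℚ`).  So `w = T c` is algebraically independent over `E₂`, and
`x_i ↦ w_i`, `lam` on `K` extend to `θ : RF K d →+* Ω` (the homomorphism on polynomials is injective).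
`τ (w i) = ∑ j, lam (N (ρ τ) i j) * w j = θ (β (ρ τ) (x i))`. -/
theorem loc_gen {K : Type} [Field K] [Algebra ℚ K] [Algebra.IsAlgebraic ℚ K] {G : Type}
    [Group G] [Finite G] {α : G →* (K ≃ₐ[ℚ] K)} {d : ℕ} (β : G →* (RF K d ≃ₐ[ℚ] RF K d))
    (hβ : SemiLin α β) {L : Type} [NontriviallyNormedField L] [CharZero L]
    (hL : ∀ (x : L) (δ : ℝ), 0 < δ → ¬ (Metric.ball x δ).Countable) {Ω : Type} [Field Ω]
    [Algebra L Ω] [IsAlgClosed Ω] [Algebra.IsAlgebraic L Ω] (lam : K →+* Ω)
    {ρ : (Ω ≃ₐ[L] Ω) →* G} (hρ : Cts ρ) (hlam : ∀ τ x, τ (lam x) = lam (α (ρ τ) x)) :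
    ∃ θ : RF K d →+* Ω, (∀ x, θ (algebraMap K (RF K d) x) = lam x) ∧
      ∀ τ z, τ (θ z) = θ (β (ρ τ) z) := by
  classical
  obtain ⟨N, hN, hN1, hNm⟩ := exists_N β hβ
  obtain ⟨T, hT, hTτ⟩ := hilbert90_loc hρ lam hlam N hN1 hNm
  obtain ⟨E₁, hE₁, hTalg⟩ := LGen_cnt (L := L) (fun ij : Fin d × Fin d => T ij.1 ij.2)
  have hchar : CharZero Ω := charZero_of_injective_algebraMap (algebraMap L Ω).injective
  have hlalg : ∀ x, IsAlgebraic E₁ (lam x) := by
    intro x
    have h1 : IsAlgebraic ℚ x := Algebra.IsAlgebraic.isAlgebraic x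
    have h2 : IsAlgebraic ℚ (lam x) := h1.algHom lam.toRatAlgHom
    exact h2.extendScalars (algebraMap ℚ E₁).injective
  obtain ⟨c, hc, -⟩ := exists_algInd (k := E₁) (K := L) hL (0 : Fin d → L) one_pos
  have hc1 : AlgebraicIndependent E₁ (fun j => algebraMap L Ω (c j)) :=
    hc.map' (f := IsScalarTower.toAlgHom E₁ L Ω) (algebraMap L Ω).injective
  obtain ⟨E₂, hE₂⟩ : ∃ E : IntermediateField E₁ Ω, E = algebraicClosure E₁ Ω := ⟨_, rfl⟩
  have hmem : ∀ x : Ω, IsAlgebraic E₁ x → x ∈ E₂ := by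
    intro x hx
    rw [hE₂]
    exact mem_algebraicClosure_iff.2 hx
  have hE₂a : Algebra.IsAlgebraic E₁ E₂ := by
    rw [hE₂]
    infer_instance
  have hc2 : AlgebraicIndependent E₂ (fun j => algebraMap L Ω (c j)) := hc1.extendScalars E₂
  obtain ⟨T', hT'⟩ : ∃ T' : Matrix (Fin d) (Fin d) E₂, ∀ i j, (T' i j : Ω) = T i j :=
    ⟨fun i j => ⟨T i j, hmem _ (hTalg (i, j))⟩, fun i j => rfl⟩
  have hdet : T'.det ≠ 0 := by
    intro h
    apply hT
    have h1 : T = (algebraMap E₂ Ω).mapMatrix T' := by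
      ext i j
      exact (hT' i j).symm
    rw [h1, ← RingHom.map_det, h, map_zero]
  obtain ⟨w, hw⟩ : ∃ w : Fin d → Ω, w = fun i => ∑ j, algebraMap E₂ Ω (T' i j) *
      algebraMap L Ω (c j) := ⟨_, rfl⟩
  have hwi : AlgebraicIndependent E₂ w := by
    rw [hw]
    exact LGen_lin T' hdet hc2
  have hwT : ∀ i, w i = ∑ j, T i j * algebraMap L Ω (c j) := by
    intro i
    rw [hw]
    refine Finset.sum_congr rfl fun j _ => ?_
    rw [← hT' i j]
    rfl
  obtain ⟨lam', hlam'⟩ : ∃ l : K →+* E₂, ∀ x, (l x : Ω) = lam x :=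
    ⟨lam.codRestrict E₂ fun x => hmem _ (hlalg x), fun x => rfl⟩
  obtain ⟨P, hP⟩ : ∃ P : MvPolynomial (Fin d) K →+* Ω, P = MvPolynomial.eval₂Hom lam w := ⟨_, rfl⟩
  have hPC : ∀ x, P (MvPolynomial.C x) = lam x := by
    intro x
    rw [hP]
    exact MvPolynomial.eval₂Hom_C _ _ x
  have hPX : ∀ i, P (MvPolynomial.X i) = w i := by
    intro i
    rw [hP]
    exact MvPolynomial.eval₂Hom_X' _ _ i
  have hPinj : Function.Injective P := by
    have h1 : P = ((MvPolynomial.aeval w : MvPolynomial (Fin d) E₂ →ₐ[E₂] Ω) :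
        MvPolynomial (Fin d) E₂ →+* Ω).comp (MvPolynomial.map lam') := by
      refine MvPolynomial.ringHom_ext (fun x => ?_) fun i => ?_
      · rw [hPC, RingHom.comp_apply, MvPolynomial.map_C]
        show _ = MvPolynomial.aeval w (MvPolynomial.C (lam' x))
        rw [MvPolynomial.aeval_C]
        exact (hlam' x).symm
      · rw [hPX, RingHom.comp_apply, MvPolynomial.map_X]
        show _ = MvPolynomial.aeval w (MvPolynomial.X i)
        rw [MvPolynomial.aeval_X]
    rw [h1, RingHom.coe_comp]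
    exact Function.Injective.comp hwi (MvPolynomial.map_injective lam' lam'.injective)
  obtain ⟨θ, hθ⟩ : ∃ θ : RF K d →+* Ω, ∀ p, θ (algebraMap (MvPolynomial (Fin d) K) (RF K d) p) =
      P p := ⟨IsFractionRing.lift hPinj, fun p => IsFractionRing.lift_algebraMap hPinj p⟩
  have hθC : ∀ x, θ (algebraMap K (RF K d) x) = lam x := by
    intro x
    rw [IsScalarTower.algebraMap_apply K (MvPolynomial (Fin d) K) (RF K d), hθ,
      MvPolynomial.algebraMap_eq, hPC]
  have hθX : ∀ i, θ (xv K i) = w i := by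
    intro i
    unfold xv
    rw [hθ, hPX]
  refine ⟨θ, hθC, fun τ z => ?_⟩
  have hτw : ∀ i, τ (w i) = ∑ j, lam (N (ρ τ) i j) * w j := by
    intro i
    have h1 : ∀ j, τ (T i j) = ∑ l, lam (N (ρ τ) i l) * T l j := by
      intro j
      have h2 := congrFun (congrFun (hTτ τ) i) j
      rw [Matrix.mul_apply] at h2
      exact h2
    rw [hwT, map_sum]
    have h3 : ∀ j, τ (T i j * algebraMap L Ω (c j)) =
        ∑ l, lam (N (ρ τ) i l) * (T l j * algebraMap L Ω (c j)) := by
      intro j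
      rw [map_mul, h1, τ.commutes, Finset.sum_mul]
      refine Finset.sum_congr rfl fun l _ => ?_
      rw [mul_assoc]
    rw [Finset.sum_congr rfl fun j _ => h3 j, Finset.sum_comm]
    refine Finset.sum_congr rfl fun l _ => ?_
    rw [hwT l, Finset.mul_sum]
  have key : ((τ : Ω →+* Ω)).comp θ = θ.comp ((β (ρ τ) : RF K d ≃ₐ[ℚ] RF K d) : RF K d →+* RF K d) := by
    refine IsFractionRing.ringHom_ext (A := MvPolynomial (Fin d) K) fun p => ?_
    have h5 : ((τ : Ω →+* Ω).comp θ).comp (algebraMap (MvPolynomial (Fin d) K) (RF K d)) =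
        (θ.comp ((β (ρ τ) : RF K d ≃ₐ[ℚ] RF K d) : RF K d →+* RF K d)).comp
          (algebraMap (MvPolynomial (Fin d) K) (RF K d)) := by
      refine MvPolynomial.ringHom_ext (fun x => ?_) fun i => ?_
      · show τ (θ (algebraMap (MvPolynomial (Fin d) K) (RF K d) (MvPolynomial.C x))) =
          θ (β (ρ τ) (algebraMap (MvPolynomial (Fin d) K) (RF K d) (MvPolynomial.C x)))
        rw [← MvPolynomial.algebraMap_eq, ← IsScalarTower.algebraMap_apply K
          (MvPolynomial (Fin d) K) (RF K d), hβ.coeff, hθC, hθC, hlam]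
      · show τ (θ (xv K i)) = θ (β (ρ τ) (xv K i))
        rw [hθX, hτw, hN, map_sum]
        refine Finset.sum_congr rfl fun j _ => ?_
        rw [map_mul, hθC, hθX]
    exact RingHom.congr_fun h5 p
  exact RingHom.congr_fun key z

end DC83
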