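import Pool.Agent.H.MP_83e36b_nt.wa.Defs

/-! Existence of hypersurface models. -/

set_option autoImplicit false

open Polynomial

namespace DC83

open WA83

/-- an element algebraic over `ℚ[ξ]` is a root of an irreducible polynomial of `ℚ[x][y]` which
depends on `y` -/
private theorem Mod_poly {F : Type} [Field F] [Algebra ℚ F] {m : ℕ} {ξ : Fin m → F}
    (ind : AlgebraicIndependent ℚ ξ) (η : F)
    (hη : IsAlgebraic (Algebra.adjoin ℚ (Set.range ξ)) η) :
    ∃ f : (MvPolynomial (Fin m) ℚ)[X], Irreducible f ∧ derivative f ≠ 0 ∧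
      evP (algebraMap ℚ F) ξ η f = 0 := by
  classical
  obtain ⟨q, hq0, hq⟩ := hη
  -- lift the coefficients
  have hsurj : Function.Surjective ind.aevalEquiv := ind.aevalEquiv.surjective
  set q' : (MvPolynomial (Fin m) ℚ)[X] :=
    q.map (ind.aevalEquiv.symm : _ →+* MvPolynomial (Fin m) ℚ) with hq'
  have hq'0 : q' ≠ 0 := by
    rw [hq', Ne, Polynomial.map_eq_zero_iff]
    · exact hq0
    · exact ind.aevalEquiv.symm.injective
  have hev : evP (algebraMap ℚ F) ξ η q' = 0 := by
    have h1 : evP (algebraMap ℚ F) ξ η q' = aeval η q := by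
      unfold evP
      rw [Polynomial.coe_eval₂RingHom, hq', Polynomial.eval₂_map, Polynomial.aeval_def]
      congr 1
      apply RingHom.ext
      intro z
      obtain ⟨w, rfl⟩ := hsurj z
      rw [RingHom.comp_apply]
      have h2 : (ind.aevalEquiv.symm : _ →+* MvPolynomial (Fin m) ℚ) (ind.aevalEquiv w) = w :=
        ind.aevalEquiv.symm_apply_apply w
      rw [h2]
      have h3 : algebraMap (Algebra.adjoin ℚ (Set.range ξ)) F (ind.aevalEquiv w) =
          MvPolynomial.aeval ξ w := ind.algebraMap_aevalEquiv w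
      rw [h3]
      rfl
    rw [h1, hq]
  obtain ⟨s, hs, u, hu⟩ := WfDvdMonoid.exists_factors q' hq'0
  have hprod : (s.map (evP (algebraMap ℚ F) ξ η)).prod = 0 := by
    rw [← map_multiset_prod]
    have h1 : evP (algebraMap ℚ F) ξ η (s.prod * u) = 0 := by rw [hu, hev]
    rw [map_mul] at h1
    rcases mul_eq_zero.1 h1 with h2 | h2
    · exact h2
    · exact absurd h2 (u.isUnit.map (evP (algebraMap ℚ F) ξ η)).ne_zero
  rw [Multiset.prod_eq_zero_iff] at hprod
  obtain ⟨f, hfs, hf⟩ := Multiset.mem_map.1 hprod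
  refine ⟨f, hs f hfs, ?_, hf⟩
  intro hd
  have hdeg : f.natDegree = 0 := Polynomial.derivative_eq_zero.1 hd
  rw [Polynomial.eq_C_of_natDegree_eq_zero hdeg] at hf
  have h4 : MvPolynomial.aeval ξ (f.coeff 0) = 0 := by
    have : evP (algebraMap ℚ F) ξ η (C (f.coeff 0)) = MvPolynomial.aeval ξ (f.coeff 0) := by
      unfold evP
      rw [Polynomial.coe_eval₂RingHom, Polynomial.eval₂_C]
      rfl
    rw [← this, hf]
  have h5 : f.coeff 0 = 0 := by
    have := (injective_iff_map_eq_zero (MvPolynomial.aeval (R := ℚ) ξ)).1 ind _ h4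
    exact this
  apply (hs f hfs).ne_zero
  rw [Polynomial.eq_C_of_natDegree_eq_zero hdeg, h5, C_0]

/-- Proof: `M / ℚ` is finitely generated, so a transcendence basis `ξ` of `F / ℚ` is finite (it is also a
transcendence basis of `M / ℚ`, as `M` is algebraic over `F`).  `M` is finitely generated and
algebraic, so finite, over `ℚ(ξ)`, and so is `F`; `η` is a primitive element of `F / ℚ(ξ)`
(characteristic 0).  The minimal polynomial of `η` over `ℚ(ξ)`, which is the field of fractions of the
polynomial ring, is up to a factor the image of a primitive, hence irreducible (Gauss) polynomial `f`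
of `ℚ[x][y]` (`IsLocalization.integerNormalization`, `Polynomial.primPart`,
`IsPrimitive.irreducible_iff_irreducible_map_fraction_map`). -/
theorem exists_generic {M : Type} [Field M] [Algebra ℚ M] (F : IntermediateField ℚ M)
    [Algebra.IsAlgebraic F M] (hM : ∃ s : Finset M, IntermediateField.adjoin ℚ (s : Set M) = ⊤) :
    ∃ (m : ℕ) (f : (MvPolynomial (Fin m) ℚ)[X]) (ξ : Fin m → F) (η : F), Generic f F ξ η := by
  classical
  obtain ⟨s, hs⟩ := hM
  -- a transcendence basis of `F`
  obtain ⟨T, hT⟩ := exists_isTranscendenceBasis ℚ F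
  have hTM : IsTranscendenceBasis ℚ (algebraMap F M ∘ ((↑) : T → F)) := hT.algebraMap_comp
  have halgs : Algebra.IsAlgebraic (Algebra.adjoin ℚ (s : Set M)) M := by
    refine ⟨fun x => ?_⟩
    have hx : x ∈ IntermediateField.adjoin ℚ (s : Set M) := by
      rw [hs]
      trivial
    rw [IntermediateField.mem_adjoin_iff_div] at hx
    obtain ⟨a, ha, b, hb, rfl⟩ := hx
    have ha' : IsAlgebraic (Algebra.adjoin ℚ (s : Set M)) a :=
      isAlgebraic_algebraMap (⟨a, ha⟩ : Algebra.adjoin ℚ (s : Set M))
    have hb' : IsAlgebraic (Algebra.adjoin ℚ (s : Set M)) b :=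
      isAlgebraic_algebraMap (⟨b, hb⟩ : Algebra.adjoin ℚ (s : Set M))
    rw [div_eq_mul_inv]
    exact ha'.mul (IsAlgebraic.inv_iff.2 hb')
  have hTfin : Finite T := by
    have h1 : Cardinal.mk T = Algebra.trdeg ℚ M := hTM.cardinalMk_eq_trdeg
    have h2 : Algebra.trdeg ℚ M ≤ Cardinal.mk (s : Set M) :=
      Algebra.IsAlgebraic.trdeg_le_cardinalMk ℚ (s : Set M)
    rw [← Cardinal.mk_lt_aleph0_iff, h1]
    exact h2.trans_lt (Cardinal.mk_lt_aleph0_iff.2 inferInstance)
  obtain ⟨m, ⟨e⟩⟩ := Finite.exists_equiv_fin T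
  set ξ : Fin m → F := fun i => (e.symm i : F) with hξ
  have hξT : IsTranscendenceBasis ℚ ξ := by
    have := hT.comp_equiv e.symm
    exact this
  have hrange : Set.range ξ = T := by
    rw [hξ]
    have : (fun i => ((e.symm i : T) : F)) = ((↑) : T → F) ∘ e.symm := rfl
    rw [this, e.symm.surjective.range_comp, Subtype.range_coe]
  set L : IntermediateField ℚ F := IntermediateField.adjoin ℚ (Set.range ξ) with hL
  have hLF : Algebra.IsAlgebraic L F := hξT.isAlgebraic_field
  have hLM : Algebra.IsAlgebraic L M := Algebra.IsAlgebraic.trans L F M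
  have hfin : FiniteDimensional L (IntermediateField.adjoin L (s : Set M)) :=
    IntermediateField.finiteDimensional_adjoin fun x _ =>
      (Algebra.IsAlgebraic.isAlgebraic x).isIntegral
  have htop : IntermediateField.adjoin L (s : Set M) = ⊤ := by
    rw [eq_top_iff]
    intro x _
    have hx : x ∈ IntermediateField.adjoin ℚ (s : Set M) := by
      rw [hs]
      trivial
    have hle : IntermediateField.adjoin ℚ (s : Set M) ≤
        (IntermediateField.adjoin L (s : Set M)).restrictScalars ℚ := by
      rw [IntermediateField.adjoin_le_iff]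
      exact IntermediateField.subset_adjoin L (s : Set M)
    exact hle hx
  have hLMfin : FiniteDimensional L M := by
    rw [htop] at hfin
    exact Module.Finite.equiv (IntermediateField.topEquiv (F := L) (E := M)).toLinearEquiv
  have hLFfin : FiniteDimensional L F := FiniteDimensional.left L F M
  obtain ⟨η, hη⟩ := Field.exists_primitive_element L F
  have hηa : IsAlgebraic (Algebra.adjoin ℚ (Set.range ξ)) η :=
    hξT.isAlgebraic.isAlgebraic η
  obtain ⟨f, hf1, hf2, hf3⟩ := Mod_poly hξT.1 η hηa
  refine ⟨m, f, ξ, η, hf1, hf2, hξT.1, hf3, ?_⟩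
  have h1 := IntermediateField.adjoin_adjoin_left ℚ (Set.range ξ) ({η} : Set F)
  rw [← hL, hη, IntermediateField.restrictScalars_top] at h1
  rw [Set.insert_eq, Set.union_comm]
  exact h1.symm

end DC83
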