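import Pool.Agent.H.MP_83e36b_nt.nr.SMain

/-! Primitive element of the extension given by a faithful action of a finite group. -/

set_option autoImplicit false

open Polynomial

namespace DC83

open CM83 NR83

/-- Proof: Artin: `M` is a finite Galois extension of the fixed field with the group `β.range`;
`Field.exists_primitive_element` gives `y`; its conjugates are distinct (`β g y = β h y` implies
`β g = β h` on `F(y) = M`). -/
theorem exists_prim {M : Type} [Field M] [Algebra ℚ M] {G : Type} [Group G] [Finite G]
    (β : G →* (M ≃ₐ[ℚ] M)) (hβ : Function.Injective β) :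
    ∃ y : M, Function.Injective (fun g => β g y) ∧ ∀ z : M, ∃ p : (fixF β)[X], aeval y p = z := by
  classical
  letI : MulSemiringAction G M := MulSemiringAction.compHom M β
  obtain ⟨y, hy⟩ := Field.exists_primitive_element (FixedPoints.subfield G M) M
  have hz : ∀ z : M, ∃ p : (FixedPoints.subfield G M)[X], aeval y p = z := by
    intro z
    have h1 : z ∈ IntermediateField.adjoin (FixedPoints.subfield G M) {y} := by
      rw [hy]
      exact IntermediateField.mem_top
    rw [← IntermediateField.mem_toSubalgebra,
      IntermediateField.adjoin_simple_toSubalgebra_of_isAlgebraic (Algebra.IsAlgebraic.isAlgebraic y),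
      Algebra.adjoin_singleton_eq_range_aeval] at h1
    exact h1
  have hfix : ∀ x : FixedPoints.subfield G M, (x : M) ∈ fixF β := fun x =>
    (mem_fixF β _).2 fun g => x.2 g
  obtain ⟨φ, hφ⟩ : ∃ φ : FixedPoints.subfield G M →+* fixF β, ∀ x, ((φ x : fixF β) : M) = x :=
    ⟨{ toFun := fun x => ⟨x, hfix x⟩
       map_one' := rfl
       map_mul' := fun _ _ => rfl
       map_zero' := rfl
       map_add' := fun _ _ => rfl }, fun _ => rfl⟩
  have hz2 : ∀ z : M, ∃ p : (fixF β)[X], aeval y p = z := by
    intro z
    obtain ⟨p, hp⟩ := hz z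
    refine ⟨p.map φ, ?_⟩
    rw [aeval_def, eval₂_map, ← hp, aeval_def]
    congr 1
    exact RingHom.ext fun x => hφ x
  refine ⟨y, fun g h hgh => hβ ?_, hz2⟩
  have key : ∀ (k : G) (p : (fixF β)[X]), β k (aeval y p) = aeval (β k y) p := by
    intro k p
    rw [aeval_def, aeval_def]
    have h1 := hom_eval₂ p (algebraMap (fixF β) M) ((β k : M ≃ₐ[ℚ] M) : M →+* M) y
    refine h1.trans ?_
    have h2 : ((β k : M ≃ₐ[ℚ] M) : M →+* M).comp (algebraMap (fixF β) M) =
        algebraMap (fixF β) M :=
      RingHom.ext fun x => (mem_fixF β _).1 x.2 k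
    rw [h2]
    rfl
  ext z
  obtain ⟨p, rfl⟩ := hz2 z
  rw [key, key]
  have h3 : β g y = β h y := hgh
  rw [h3]

end DC83
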