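import Pool.Agent.H.MP_83e36b_nt.dc.MDef2
import Pool.Agent.H.MP_83e36b_nt.sp.LWa
import Pool.Agent.H.MP_83e36b_nt.wa.Local

/-! Weak approximation at the places of a finite set; continuity of rational functions. -/

set_option autoImplicit false

open Polynomial SpinWA Topology

namespace DC83

open WA83

private noncomputable def waPlNat : Pl → ℕ
  | none => 0
  | some p => (p : ℕ)

/-- Proof: `A = P none`, `B p = P (some ⟨p, _⟩)`, the set of the primes `p` with `some p ∈ S`;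
`emb v = Rat.cast`. -/
theorem wa_pl {m : ℕ} {f g : (MvPolynomial (Fin m) ℚ)[X]} (h : WeakApprox f g) (S : Finset Pl)
    (P : ∀ v : Pl, Pts f g (emb v)) {δ : ℝ} (hδ : 0 < δ) :
    ∃ p : Pts f g (RingHom.id ℚ), ∀ v ∈ S,
      (∀ j, ‖emb v (p.1.1 j) - (P v).1.1 j‖ < δ) ∧ ‖emb v p.1.2 - (P v).1.2‖ < δ := by
  have e0 : (emb none : ℚ →+* ℝ) = algebraMap ℚ ℝ := RingHom.ext_rat _ _
  have hA : (show (Fin m → ℝ) × ℝ from (P none).1) ∈ Pts f g (algebraMap ℚ ℝ) := by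
    rw [← e0]
    exact (P none).2
  have eP : ∀ (p : ℕ) [hp : Fact p.Prime],
      (emb (some ⟨p, hp.out⟩) : ℚ →+* ℚ_[p]) = algebraMap ℚ ℚ_[p] := by
    intro p hp
    exact RingHom.ext_rat _ _
  have hB : ∀ (p : ℕ) [hp : Fact p.Prime],
      (show (Fin m → ℚ_[p]) × ℚ_[p] from (P (some ⟨p, hp.out⟩)).1)
        ∈ Pts f g (algebraMap ℚ ℚ_[p]) := by
    intro p hp
    rw [← eP]
    exact (P (some ⟨p, hp.out⟩)).2
  obtain ⟨Q, h1, h2⟩ := h ⟨_, hA⟩ (fun p _ => ⟨_, hB p⟩) (S.image waPlNat) δ hδ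
  refine ⟨Q, fun v hv => ?_⟩
  match v, hv with
  | none, _ => exact h1
  | some q, hv =>
    exact h2 (q : ℕ) (Finset.mem_image.2 ⟨some q, hv, rfl⟩)

/-- Proof: `cont` of wa/Local.lean. -/
theorem quot_near {L : Type} [NormedField L] (φ : ℚ →+* L) {m : ℕ}
    (D C : (MvPolynomial (Fin m) ℚ)[X]) (N : ℕ) (x : Fin m → L) (y : L)
    (hD : evP φ x y D ≠ 0) {ε : ℝ} (hε : 0 < ε) :
    ∃ δ : ℝ, 0 < δ ∧ ∀ (x' : Fin m → L) (y' : L), (∀ j, ‖x' j - x j‖ < δ) → ‖y' - y‖ < δ →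
      ‖evP φ x' y' C / evP φ x' y' D ^ N - evP φ x y C / evP φ x y D ^ N‖ < ε := by
  have hc : ContinuousAt (fun p : (Fin m → L) × L =>
      evP φ p.1 p.2 C / evP φ p.1 p.2 D ^ N) (x, y) :=
    ((cont φ C).continuousAt).div ((cont φ D).continuousAt.pow N) (pow_ne_zero N hD)
  rw [Metric.continuousAt_iff] at hc
  obtain ⟨δ, hδ, h⟩ := hc ε hε
  refine ⟨δ, hδ, fun x' y' hx hy => ?_⟩
  have h1 : dist ((x', y') : (Fin m → L) × L) (x, y) < δ := by
    rw [Prod.dist_eq, max_lt_iff]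
    constructor
    · rw [dist_pi_lt_iff hδ]
      intro j
      rw [dist_eq_norm]
      exact hx j
    · rw [dist_eq_norm]
      exact hy
  have h2 := h h1
  rw [dist_eq_norm] at h2
  exact h2

end DC83
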