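import Pool.Agent.H.MP_83e36b_nt.tw.HDef
import Pool.Agent.H.MP_83e36b_nt.tw.WaPl
import Pool.Agent.H.MP_83e36b_nt.tw.WaPlS
import Pool.Agent.H.MP_83e36b_nt.tw.Ext
import Pool.Agent.H.MP_83e36b_nt.tw.Hom
import Pool.Agent.H.MP_83e36b_nt.tw.Near
import Pool.Agent.H.MP_83e36b_nt.tw.RevA
import Pool.Agent.H.MP_83e36b_nt.tw.RevB
import Pool.Agent.H.MP_83e36b_nt.tw.GDefS
import Pool.Agent.H.MP_83e36b_nt.dc.TrDa

/-! From weak approximation to the relative Grunwald problem, strong form. -/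

set_option autoImplicit false

open Polynomial SpinWA Topology

namespace DC83

open CM83 NR83 WA83

/-- The proof of `rev_transfer` in tw/Rev.lean, at the places of `S` only. -/
theorem rev_transferS {K : Type} [Field K] [Algebra ℚ K] [FiniteDimensional ℚ K] [IsGalois ℚ K]
    {G : Type} [Group G] [Finite G] {α : G →* (K ≃ₐ[ℚ] K)} (hα : Function.Surjective α)
    (h : HasseWAFor α) : RelGrunwaldS α := by
  classical
  intro S hS κ ι ρ hρ hc
  let _ : Fintype G := Fintype.ofFinite G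
  obtain ⟨a, ha⟩ := Field.exists_primitive_element ℚ K
  have ha' : ∀ x : K, ∃ u : ℚ[X], x = aeval a u := by
    intro x
    have hx : x ∈ IntermediateField.adjoin ℚ {a} := by
      rw [ha]
      exact IntermediateField.mem_top
    have hai : IsAlgebraic ℚ a := Algebra.IsAlgebraic.isAlgebraic a
    rw [← IntermediateField.mem_toSubalgebra,
      IntermediateField.adjoin_simple_toSubalgebra_of_isAlgebraic hai,
      Algebra.adjoin_singleton_eq_range_aeval] at hx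
    obtain ⟨u, hu⟩ := hx
    exact ⟨u, hu.symm⟩
  obtain ⟨d, β, m, f, D, ξ, η, A, y, Φ, R, Q, hβ, hgen, hD, hA, hAC, hAN, hAψ, hΦ, hR, hQ, hsep⟩ :=
    rev_data α a
  have hloc := fun (v : Pl) (hv : v ∈ S) => rev_local hβ hgen hD hA hΦ hR hQ hsep (L := Cpl v)
    (fun x δ hδ => ball_uncountable v x hδ) (Ω := Om v) (emb v) ((ι v).comp κ) (hρ v hv) (hc v hv)
  choose P ψ₀ r₀ hψ₀ h₀ hτ₀ using hloc
  choose T ε hε hnear using fun (v : Pl) (hv : v ∈ S) =>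
    spec_near Φ R Q α a (ψ₀ v hv) ((ι v).comp κ) (r₀ v hv) (h₀ v hv)
  choose C N hCN using hAN
  -- the values of a homomorphism given by a point
  have hval : ∀ (L : Type) [Field L] (φ : ℚ →+* L) (x' : Fin m → L) (y' : L) (ψ : A →+* L),
      (∀ (c : A) (C : (MvPolynomial (Fin m) ℚ)[X]),
        (c : RF K d) = ((evP (algebraMap ℚ (fixF β)) ξ η C : fixF β) : RF K d) →
          ψ c = evP φ x' y' C) → evP φ x' y' D ≠ 0 → ∀ c : A,
      ψ c = evP φ x' y' (C c c.2) / evP φ x' y' D ^ N c c.2 := by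
    intro L _ φ x' y' ψ hψ hD' c
    have h1 : ψ ⟨_, hAC D⟩ = evP φ x' y' D := hψ _ D rfl
    have h2 : ψ ⟨_, hAC (C c c.2)⟩ = evP φ x' y' (C c c.2) := hψ _ _ rfl
    rw [eq_div_iff (pow_ne_zero _ hD'), ← h1, ← h2, ← map_pow, ← map_mul]
    congr 1
    exact Subtype.ext (hCN c c.2)
  have hδ : ∀ᶠ δ : ℝ in 𝓝[>] 0, ∀ v (hv : v ∈ S), ∀ c ∈ T v hv,
      ∀ (x' : Fin m → Cpl v) (y' : Cpl v),
      (∀ j, ‖x' j - (P v hv).1.1 j‖ < δ) → ‖y' - (P v hv).1.2‖ < δ →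
      ‖evP (emb v) x' y' (C c c.2) / evP (emb v) x' y' D ^ N c c.2 -
        evP (emb v) (P v hv).1.1 (P v hv).1.2 (C c c.2) /
          evP (emb v) (P v hv).1.1 (P v hv).1.2 D ^ N c c.2‖ < ε v hv := by
    have h1 : ∀ s : {v // v ∈ S}, ∀ᶠ δ : ℝ in 𝓝[>] 0, ∀ c ∈ T s.1 s.2,
        ∀ (x' : Fin m → Cpl s.1) (y' : Cpl s.1),
        (∀ j, ‖x' j - (P s.1 s.2).1.1 j‖ < δ) → ‖y' - (P s.1 s.2).1.2‖ < δ →
        ‖evP (emb s.1) x' y' (C c c.2) / evP (emb s.1) x' y' D ^ N c c.2 -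
          evP (emb s.1) (P s.1 s.2).1.1 (P s.1 s.2).1.2 (C c c.2) /
            evP (emb s.1) (P s.1 s.2).1.1 (P s.1 s.2).1.2 D ^ N c c.2‖ < ε s.1 s.2 := ?_
    · have h2 := Filter.eventually_all.2 h1
      filter_upwards [h2] with δ hδ v hv
      exact hδ ⟨v, hv⟩
    rintro ⟨v, hv⟩
    rw [Filter.eventually_all_finset]
    intro c _
    obtain ⟨δ, hδ0, hδ1⟩ := quot_near (emb v) D (C c c.2) (N c c.2) (P v hv).1.1 (P v hv).1.2
      (P v hv).2.2.2 (hε v hv)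
    filter_upwards [Ioo_mem_nhdsGT hδ0] with δ' hδ' x' y' hx hy
    exact hδ1 x' y' (fun j => (hx j).trans hδ'.2) (hy.trans hδ'.2)
  obtain ⟨δ, hδ1, hδ0⟩ := (hδ.and self_mem_nhdsWithin).exists
  have hst : ∀ (F : Type) [Field F] [Algebra ℚ F], StablyIso ℚ F F := fun F _ _ =>
    StablyIso.of_equiv AlgEquiv.refl
  obtain ⟨p, hp⟩ := wa_plS (h d β hβ m f D (fixF β) ξ η hgen hD (hst _)) S hS P hδ0
  obtain ⟨ψ, hψ⟩ := hAψ ℚ (RingHom.id ℚ) p.1.1 p.1.2 p.2.1 p.2.2.2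
  have hψv := hval ℚ (RingHom.id ℚ) p.1.1 p.1.2 ψ hψ p.2.2.2
  obtain ⟨r, κ', hr⟩ := spec_ext β (A := A) (fun g c hc' => (mem_fixF β c).1 (hA c hc') g)
    (algebraMap K (RF K d)) α hβ.coeff ha' hΦ hR hQ hsep (Ω := Qb) ((algebraMap ℚ Qb).comp ψ)
  have halg : Algebra.IsAlgebraic ℚ Qb := AlgebraicClosure.isAlgebraic ℚ
  obtain ⟨r', ρ₀, hr', hcts, hτ, hκ⟩ := spec_hom hα ha' hr κ
  refine ⟨ρ₀, hcts, hκ, fun v hv => ?_⟩
  have hcomp : (algebraMap (Cpl v) (Om v)).comp ((emb v).comp ψ) =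
      (ι v).comp ((algebraMap ℚ Qb).comp ψ) := by
    rw [← RingHom.comp_assoc, ← RingHom.comp_assoc]
    congr 1
    exact Subsingleton.elim _ _
  have hspec : SpecPt Φ R Q α a ((algebraMap (Cpl v) (Om v)).comp ((emb v).comp ψ))
      (fun g => ι v (r' g)) ((ι v).comp κ) := by
    rw [hcomp]
    refine ⟨fun g g' hg => hr'.inj ((ι v).injective hg), ?_, fun g g' => ?_, fun g => ?_⟩
    · rw [← Polynomial.map_map, hr'.root, Polynomial.map_prod]
      simp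
    · rw [← Polynomial.hom_eval₂, hr'.mul]
    · rw [← Polynomial.hom_eval₂, hr'.kap]
      rfl
  obtain ⟨k, hk, hk'⟩ := hnear v hv ((emb v).comp ψ) (fun c hcT => by
    have h1 := hδ1 v hv c hcT (fun j => emb v (p.1.1 j)) (emb v p.1.2) (hp v hv).1 (hp v hv).2
    rw [evP_comp, evP_comp, ← map_pow, ← map_div₀, ← hψv c,
      ← hval (Cpl v) (emb v) (P v hv).1.1 (P v hv).1.2 (ψ₀ v hv) (hψ₀ v hv) (P v hv).2.2.2 c] at h1
    exact h1) _ hspec
  have hαk : α k = 1 := by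
    ext x
    obtain ⟨u, rfl⟩ := ha' x
    have h1 := Polynomial.aeval_algHom_apply (α k : K →ₐ[ℚ] K) a u
    rw [AlgEquiv.one_apply]
    refine h1.symm.trans ?_
    congr 2
  refine ⟨k, hαk, fun τ τ₀ hττ => ?_⟩
  have h1 : τ (r₀ v hv 1) = r₀ v hv (ρ v τ) := by
    rw [hτ₀ v hv τ 1, mul_one]
  have h2 := hk' τ (ρ v τ) h1
  rw [← hττ, hτ] at h2
  have h3 := hr'.inj ((ι v).injective h2)
  rw [eq_mul_inv_iff_mul_eq]
  exact h3

end DC83
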