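import Pool.Agent.H.MP_83e36b_nt.tw.TDef
import Pool.Agent.H.MP_83e36b_nt.nr.SMain
import Pool.Agent.H.MP_83e36b_nt.nr.Semi

/-! The steps of the towers with alternating composition factors. -/

set_option autoImplicit false

open Polynomial

namespace DC83

open CM83 NR83 WA83

/-- the algebra structures over `ℚ` are unique -/
private theorem StA_inst {F₁ F₂ : Type} [Field F₁] [Field F₂] (a₁ a₁' : Algebra ℚ F₁)
    (a₂ a₂' : Algebra ℚ F₂) (h : @StablyIso ℚ _ F₁ _ a₁ F₂ _ a₂) :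
    @StablyIso ℚ _ F₁ _ a₁' F₂ _ a₂' := by
  obtain rfl : a₁ = a₁' := Subsingleton.elim _ _
  obtain rfl : a₂ = a₂' := Subsingleton.elim _ _
  exact h

/-- Proof: `N = q.ker`, `e : G ⧸ N ≃* A` (`QuotientGroup.quotientKerEquivOfSurjective`),
`α' = γ ∘ e`.  `exists_semi` for `γ`: `γ'`; `γ' ∘ e` is semilinear over `α'` (`SemiLin.comp`) with the same
fixed field.  `red_tower` (nr/SMain.lean; `Tower.of_alt`): `StablyIso (fixF β) (fixF (γ' ∘ e))`; apply
the hypothesis to `γ'`. -/
theorem wa_alt {K : Type} [Field K] [Algebra ℚ K] {G A : Type} [Group G] [Finite G] [Group A]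
    (γ : A →* (K ≃ₐ[ℚ] K)) (q : G →* A) (hq : Function.Surjective q)
    (hN : AltSeries q.ker ∨ Tower G q.ker) (hγ : WAFor γ) : WAFor (γ.comp q) := by
  intro d β hβ m f g F _ _ ξ η hgen hg hF
  have hfin : Finite A := Finite.of_surjective q hq
  let e : G ⧸ q.ker ≃* A := QuotientGroup.quotientKerEquivOfSurjective q hq
  obtain ⟨c, γ', hγ'⟩ := exists_semi γ
  have hT : Tower G q.ker := hN.elim (Tower.of_alt q.ker) id
  have hR : Red ℚ K G q.ker := red_tower hT
  have hβ' : SemiLin ((γ.comp e.toMonoidHom).comp (QuotientGroup.mk' q.ker)) β := hβ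
  have h1 := hR (γ.comp e.toMonoidHom) d c β hβ' (γ'.comp e.toMonoidHom)
    (hγ'.comp e.toMonoidHom e.injective)
  rw [fixF_comp γ' e.toMonoidHom e.surjective] at h1
  exact hγ c γ' hγ' m f g F ξ η hgen hg (hF.trans (StA_inst _ _ _ _ h1))

end DC83
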