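import Pool.Agent.H.MP_83e36b_nt.tw.TDef
import Pool.Agent.H.MP_83e36b_nt.td.SFin
import Pool.Agent.H.MP_83e36b_nt.td.Quad3

/-! The first step of the towers. -/

set_option autoImplicit false

open Polynomial SpinWA

namespace DC83

open CM83 NR83 WA83

/-- The relative Grunwald problem for the first step. -/
private theorem stB_grun {K : Type} [Field K] [Algebra ℚ K] [FiniteDimensional ℚ K] [IsGalois ℚ K]
    {G : Type} [Group G] (α : G →* (K ≃ₐ[ℚ] K)) (t : ℕ) (χ : G →* (Fin t → ℤˣ))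
    (h : Function.Bijective (α.prod χ)) : RelGrunwald α := by
  intro S κ ι ρ hρ hκ
  obtain ⟨e, he⟩ : ∃ e : G ≃* (K ≃ₐ[ℚ] K) × (Fin t → ℤˣ), ∀ g, e g = (α g, χ g) :=
    ⟨MulEquiv.ofBijective (α.prod χ) h, fun g => rfl⟩
  have hfst : ∀ y, α (e.symm y) = y.1 := by
    intro y
    have h1 := he (e.symm y)
    rw [e.apply_symm_apply] at h1
    exact (congrArg Prod.fst h1).symm
  obtain ⟨ρ₀, h1, h2, h3⟩ := rel_grun_quad (K := K) t S κ ι (fun v => e.toMonoidHom.comp (ρ v))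
    (fun v => (hρ v).comp _) (fun v τ x => by
      have h4 := hκ v τ x
      rw [h4]
      have h5 : (MonoidHom.fst (K ≃ₐ[ℚ] K) (Fin t → ℤˣ)) ((e.toMonoidHom.comp (ρ v)) τ) =
          α (ρ v τ) := by
        show (e (ρ v τ)).1 = α (ρ v τ)
        rw [he]
      rw [h5])
  refine ⟨e.symm.toMonoidHom.comp ρ₀, h1.comp _, fun τ x => ?_, fun v hv => ?_⟩
  · have h4 := h2 τ x
    rw [h4]
    have h5 : α ((e.symm.toMonoidHom.comp ρ₀) τ) =
        (MonoidHom.fst (K ≃ₐ[ℚ] K) (Fin t → ℤˣ)) (ρ₀ τ) := hfst (ρ₀ τ)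
    rw [h5]
  · obtain ⟨g, hg1, hg2⟩ := h3 v hv
    refine ⟨e.symm g, ?_, fun τ τ₀ hτ => ?_⟩
    · rw [hfst]
      exact hg1
    · have h4 := hg2 τ τ₀ hτ
      show e.symm (ρ₀ τ₀) = e.symm g * ρ v τ * (e.symm g)⁻¹
      rw [h4]
      show e.symm (g * e (ρ v τ) * g⁻¹) = e.symm g * ρ v τ * (e.symm g)⁻¹
      rw [map_mul, map_mul, map_inv, e.symm_apply_apply]

/-- Proof: `e : G ≃* (K ≃ₐ[ℚ] K) × (Fin t → ℤˣ)` (`MulEquiv.ofBijective`), `α = fst ∘ e`;
`rel_grun_quad` for `e ∘ ρ v`, compose with `e.symm`; `transfer_wa`. -/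
theorem wa_base {K : Type} [Field K] [Algebra ℚ K] [FiniteDimensional ℚ K] [IsGalois ℚ K]
    {G : Type} [Group G] [Finite G] (α : G →* (K ≃ₐ[ℚ] K)) (t : ℕ) (χ : G →* (Fin t → ℤˣ))
    (h : Function.Bijective (α.prod χ)) : WAFor α := by
  intro d β hβ m f g F _ _ ξ η hgen hg hF
  have hα : Function.Surjective α := by
    intro a
    obtain ⟨x, hx⟩ := h.2 (a, 1)
    exact ⟨x, congrArg Prod.fst hx⟩
  refine transfer_wa hα (stB_grun α t χ h) β hβ hgen hg ?_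
  convert hF
  exact Subsingleton.elim _ _

end DC83
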