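import Pool.Agent.H.MP_83e36b_nt.tw.StA
import Pool.Agent.H.MP_83e36b_nt.tw.StB
import Pool.Agent.H.MP_83e36b_nt.tw.Rev
import Pool.Agent.H.MP_83e36b_nt.td.SFin
import Pool.Agent.H.MP_83e36b_nt.td.Core3
import Pool.Agent.H.MP_83e36b_nt.td.ResF

/-! The steps of the towers with the double covers; the main theorem. -/

set_option autoImplicit false

open Polynomial SpinWA

namespace DC83

open CM83 NR83 WA83

/-- Proof: `rev_transfer` for `γ`, `rel_grun1`, `transfer_wa`. -/
theorem wa_dbl {K : Type} [Field K] [Algebra ℚ K] [FiniteDimensional ℚ K] [IsGalois ℚ K]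
    {G A : Type} [Group G] [Finite G] [Group A] [Finite A] (γ : A →* (K ≃ₐ[ℚ] K))
    (hγs : Function.Surjective γ) (q : G →* A) (hq : Function.Surjective q) {n m : ℕ}
    (hn : 4 ≤ n) (φ : G →* dAlt (n + m)) (hφ : KerTwoAlt q φ) (hγ : WAFor γ) :
    WAFor (γ.comp q) := by
  intro d β hβ r f g F _ _ ξ η hgen hg hF
  have hs : Function.Surjective (γ.comp q) := hγs.comp hq
  exact transfer_wa hs (rel_grun1 hn hq hφ γ (rev_transfer hγs hγ)) β hβ hgen hg
    (by
      convert hF
      exact Subsingleton.elim _ _)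

/-- Proof: `gal_of_fix`; induction on `hα`; the fixed field and the finiteness pass to the quotients. -/
theorem main5 {K : Type} [Field K] [Algebra ℚ K] {G : Type} [Group G] [Finite G]
    (α : G →* (K ≃ₐ[ℚ] K)) (hfix : fixF α = ⊥) (hα : DTower α) : WAFor α := by
  rename_i hfin
  revert hfin hfix
  induction hα with
  | base α t χ h =>
    intro hfin hfix
    obtain ⟨h1, h2, h3⟩ := gal_of_fix hfix
    exact wa_base α t χ h
  | known α h =>
    intro hfin hfix
    exact h
  | alt γ q hq hN hγ ih =>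
    intro hfin hfix
    rw [fixF_comp γ q hq] at hfix
    have hA := Finite.of_surjective q hq
    exact wa_alt γ q hq hN (ih hfix)
  | dbl γ q hq n m hn φ hφ hγ ih =>
    intro hfin hfix
    rw [fixF_comp γ q hq] at hfix
    have hA := Finite.of_surjective q hq
    obtain ⟨h1, h2, h3⟩ := gal_of_fix hfix
    exact wa_dbl γ h3 q hq hn φ hφ (ih hfix)

end DC83
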