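import Pool.Agent.H.MP_83e36b_nt.nr.PT

/-! Elementary symmetric functions of the variables of the fibres of a map. -/

set_option autoImplicit false

open Polynomial

namespace DC83

/-- the elementary symmetric function of degree `l + 1` of the elements `s j`, `p j = i` -/
noncomputable def esf {E : Type} [Field E] {J I : Type} [Fintype J] [DecidableEq I] (p : J → I)
    (s : J → E) (i : I) (l : ℕ) : E :=
  ((Finset.univ.filter fun j => p j = i).val.map s).esymm (l + 1)

/-- the indices `(i, l)`, `l` less than the number of elements of the fibre of `i` -/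
abbrev EIx {J I : Type} [Fintype J] [DecidableEq I] (p : J → I) : Type :=
  {x : I × ℕ // x.2 < (Finset.univ.filter fun j => p j = x.1).card}

private noncomputable def SymA_equiv {J I : Type} [Fintype J] [DecidableEq I] (p : J → I) :
    EIx p ≃ J :=
  let e1 : EIx p ≃ Σ i : I, Fin (Finset.univ.filter fun j => p j = i).card :=
    { toFun := fun x => ⟨x.1.1, ⟨x.1.2, x.2⟩⟩
      invFun := fun y => ⟨(y.1, y.2.1), y.2.2⟩
      left_inv := fun _ => rfl
      right_inv := fun _ => rfl }
  let e2 : (Σ i : I, Fin (Finset.univ.filter fun j => p j = i).card) ≃ Σ i : I, {j // p j = i} :=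
    Equiv.sigmaCongrRight fun i =>
      (Finset.equivFin (Finset.univ.filter fun j => p j = i)).symm.trans
        (Equiv.subtypeEquivRight fun j => by simp)
  (e1.trans e2).trans (Equiv.sigmaFiberEquiv p)

section

variable {L : Type} [Field L] {E : Type} [Field E] [Algebra L E] {J I : Type}
  [Fintype J] [DecidableEq I] (p : J → I) (s : J → E)

/-- the polynomial with the roots `s j'`, `p j' = i` -/
private noncomputable def SymA_f (i : I) : E[X] :=
  ((Finset.univ.filter fun j => p j = i).val.map fun j => X - C (s j)).prod

/-- the field of the elementary symmetric functions -/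
private noncomputable def SymA_K (L : Type) [Field L] [Algebra L E] : IntermediateField L E :=
  IntermediateField.adjoin L (Set.range fun x : EIx p => esf p s x.1.1 x.1.2)

private theorem SymA_lift (i : I) :
    ∃ g : (SymA_K p s L)[X], g.map (algebraMap (SymA_K p s L) E) = SymA_f p s i := by
  have h1 : SymA_f p s i ∈ Polynomial.lifts (algebraMap (SymA_K p s L) E) := by
    rw [Polynomial.lifts_iff_coeff_lifts]
    intro m
    have h2 : SymA_f p s i =
        (((Finset.univ.filter fun j => p j = i).val.map s).map fun t => X - C t).prod := by
      unfold SymA_f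
      rw [Multiset.map_map]
      rfl
    set S : Multiset E := (Finset.univ.filter fun j => p j = i).val.map s with hS
    have hcard : Multiset.card S = (Finset.univ.filter fun j => p j = i).card := by
      rw [hS, Multiset.card_map]
      rfl
    rcases le_or_gt m (Multiset.card S) with hm | hm
    · rw [h2, Multiset.prod_X_sub_C_coeff _ hm]
      rcases Nat.eq_zero_or_pos (Multiset.card S - m) with h0 | h0
      · rw [h0, pow_zero, one_mul, show S.esymm 0 = 1 by simp [Multiset.esymm]]
        exact ⟨1, map_one _⟩
      · have h3 : S.esymm (Multiset.card S - m) ∈ SymA_K p s L := by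
          refine IntermediateField.subset_adjoin _ _
            ⟨⟨(i, Multiset.card S - m - 1), ?_⟩, ?_⟩
          · show Multiset.card S - m - 1 < _
            rw [← hcard]
            omega
          · show S.esymm (Multiset.card S - m - 1 + 1) = _
            congr 1
            omega
        exact ⟨(-1) ^ (Multiset.card S - m) * ⟨_, h3⟩, by simp⟩
    · have h3 : (SymA_f p s i).coeff m = 0 := by
        refine Polynomial.coeff_eq_zero_of_natDegree_lt ?_
        rw [h2, Polynomial.natDegree_multiset_prod_X_sub_C_eq_card]
        exact hm
      rw [h3]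
      exact ⟨0, map_zero _⟩
  exact (Polynomial.mem_lifts _).1 h1

/-- the polynomial over the field of the elementary symmetric functions -/
private noncomputable def SymA_g (L : Type) [Field L] [Algebra L E] (i : I) : (SymA_K p s L)[X] :=
  (SymA_lift (L := L) p s i).choose

private theorem SymA_g_map (i : I) :
    (SymA_g p s L i).map (algebraMap (SymA_K p s L) E) = SymA_f p s i :=
  (SymA_lift (L := L) p s i).choose_spec

private theorem SymA_root (j : J) : (SymA_f p s (p j)).eval (s j) = 0 := by
  unfold SymA_f
  rw [Polynomial.eval_multiset_prod, Multiset.map_map]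
  refine Multiset.prod_eq_zero (Multiset.mem_map.2 ⟨j, ?_, ?_⟩)
  · show j ∈ (Finset.univ.filter fun j' => p j' = p j).val
    simp
  · simp

private theorem SymA_of_root {i : I} {z : E} (h : (SymA_f p s i).eval z = 0) :
    ∃ j, p j = i ∧ z = s j := by
  unfold SymA_f at h
  rw [Polynomial.eval_multiset_prod, Multiset.map_map, Multiset.prod_eq_zero_iff,
    Multiset.mem_map] at h
  obtain ⟨j, hj, hj'⟩ := h
  refine ⟨j, by simpa using hj, ?_⟩
  have h1 : z - s j = 0 := by simpa using hj'
  exact sub_eq_zero.1 h1

private theorem SymA_split (htop : IntermediateField.adjoin L (Set.range s) = ⊤) :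
    (∏ j, SymA_g p s L (p j)).IsSplittingField (SymA_K p s L) E := by
  have hmap : (∏ j, SymA_g p s L (p j)).map (algebraMap (SymA_K p s L) E) =
      ∏ j, SymA_f p s (p j) := by
    rw [Polynomial.map_prod]
    exact Finset.prod_congr rfl fun j _ => SymA_g_map p s _
  have hf1 : ∀ i, (SymA_f p s i).Monic := fun i =>
    Polynomial.monic_multiset_prod_of_monic _ _ fun j _ => Polynomial.monic_X_sub_C _
  rw [isSplittingField_iff_intermediateField]
  constructor
  · rw [hmap]
    refine Polynomial.Splits.prod fun j _ => ?_
    unfold SymA_f
    refine Polynomial.Splits.multisetProd ?_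
    intro q hq
    obtain ⟨j, -, rfl⟩ := Multiset.mem_map.1 hq
    exact Polynomial.Splits.X_sub_C _
  · rw [eq_top_iff]
    intro z _
    have hz : z ∈ IntermediateField.adjoin L (Set.range s) := by rw [htop]; trivial
    have hle : IntermediateField.adjoin L (Set.range s) ≤
        (IntermediateField.adjoin (SymA_K p s L)
          ((∏ j, SymA_g p s L (p j)).rootSet E)).restrictScalars L := by
      rw [IntermediateField.adjoin_le_iff]
      rintro _ ⟨j, rfl⟩
      show s j ∈ IntermediateField.restrictScalars L (IntermediateField.adjoin (SymA_K p s L)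
          ((∏ j, SymA_g p s L (p j)).rootSet E))
      rw [IntermediateField.mem_restrictScalars]
      refine IntermediateField.subset_adjoin _ _ ?_
      rw [Polynomial.mem_rootSet']
      constructor
      · rw [hmap]
        exact (Polynomial.monic_prod_of_monic _ _ fun j _ => hf1 (p j)).ne_zero
      · rw [Polynomial.aeval_def, Polynomial.eval₂_eq_eval_map, hmap, Polynomial.eval_prod]
        exact Finset.prod_eq_zero (Finset.mem_univ j) (SymA_root p s j)
    exact hle hz

end

variable {L : Type} [Field L] [CharZero L] {E : Type} [Field E] [Algebra L E] {J I : Type}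
  [Fintype J] [DecidableEq I] [Finite I] (p : J → I) (s : J → E)

/-- Proof: `s j` is a root of the polynomial `∏ (X - s j')`, `p j' = p j`, whose coefficients are up to
the signs `1` and the `esf p s (p j) l` (`Multiset.prod_X_sub_C_eq_sum_esymm` or similar).  So `E` is
algebraic over `L(esf)`, and the family of the `esf` contains a transcendence basis of `E` over `L`; the
number of the indices is `card J`, the transcendence degree. -/
theorem esf_ind (hs : AlgebraicIndependent L s)
    (htop : IntermediateField.adjoin L (Set.range s) = ⊤) :
    AlgebraicIndependent L fun x : EIx p => esf p s x.1.1 x.1.2 := by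
  have := SymA_split (L := L) p s htop
  have : FiniteDimensional (SymA_K p s L) E :=
    Polynomial.IsSplittingField.finiteDimensional E (∏ j, SymA_g p s L (p j))
  have : Algebra.IsAlgebraic (SymA_K p s L) E := inferInstance
  have hE : Algebra.IsAlgebraic
      (Algebra.adjoin L (Set.range fun x : EIx p => esf p s x.1.1 x.1.2)) E := by
    have h1 : Algebra.IsAlgebraic
        (IntermediateField.adjoin L (Set.range fun x : EIx p => esf p s x.1.1 x.1.2)) E := this
    exact IntermediateField.isAlgebraic_adjoin_iff_top.1 h1
  have hbas : IsTranscendenceBasis L s := by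
    rw [hs.isTranscendenceBasis_iff_isAlgebraic, ← IntermediateField.isAlgebraic_adjoin_iff_top]
    refine ⟨fun z => ?_⟩
    have hz : z ∈ IntermediateField.adjoin L (Set.range s) := by rw [htop]; trivial
    exact isAlgebraic_algebraMap (⟨z, hz⟩ : IntermediateField.adjoin L (Set.range s))
  have e := SymA_equiv p
  have : Finite (EIx p) := Finite.of_equiv J e.symm
  exact (Algebra.IsAlgebraic.isTranscendenceBasis_of_le_trdeg_of_finite L _
    ((Cardinal.mk_congr e).le.trans hbas.cardinalMk_eq_trdeg.le)).1

/-- Proof: let `L₁ = L(esf)`.  `E` is the splitting field over `L₁` of the product of the polynomials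
`f_i = ∏ (X - s j)`, `p j = i`, so `E / L₁` is a finite Galois extension.  An automorphism `τ` of
`E / L₁` permutes the roots of every `f_i`: `τ (s j) = s (σ j)` with `p (σ j) = p j` (`s` is
injective).  So `z` is fixed by all of them. -/
theorem esf_gen (hs : AlgebraicIndependent L s)
    (htop : IntermediateField.adjoin L (Set.range s) = ⊤) (z : E)
    (hz : ∀ (τ : E ≃ₐ[L] E) (σ : Equiv.Perm J), (∀ j, p (σ j) = p j) →
      (∀ j, τ (s j) = s (σ j)) → τ z = z) :
    z ∈ IntermediateField.adjoin L (Set.range fun x : EIx p => esf p s x.1.1 x.1.2) := by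
  have := SymA_split (L := L) p s htop
  have : FiniteDimensional (SymA_K p s L) E :=
    Polynomial.IsSplittingField.finiteDimensional E (∏ j, SymA_g p s L (p j))
  have : Normal (SymA_K p s L) E := Normal.of_isSplittingField (∏ j, SymA_g p s L (p j))
  have : IsGalois (SymA_K p s L) E := ⟨⟩
  have hfix : z ∈ Set.range (algebraMap (SymA_K p s L) E) := by
    rw [IsGalois.mem_range_algebraMap_iff_fixed]
    intro τ
    have hroot : ∀ j, ∃ j', p j' = p j ∧ τ (s j) = s j' := by
      intro j
      refine SymA_of_root p s ?_
      rw [← SymA_g_map (L := L), Polynomial.eval_map_algebraMap]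
      have h1 : Polynomial.aeval (s j) (SymA_g p s L (p j)) = 0 := by
        rw [Polynomial.aeval_def, Polynomial.eval₂_eq_eval_map, SymA_g_map]
        exact SymA_root p s j
      have h2 := Polynomial.aeval_algHom_apply τ.toAlgHom (s j) (SymA_g p s L (p j))
      rw [h1, map_zero] at h2
      exact h2
    choose σ hσ1 hσ2 using hroot
    have hinj : Function.Injective σ := by
      intro i j hij
      have h3 : τ (s i) = τ (s j) := by rw [hσ2, hσ2, hij]
      exact hs.injective (τ.injective h3)
    have hbij : Function.Bijective σ := Finite.injective_iff_bijective.1 hinj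
    exact hz (τ.restrictScalars L) (Equiv.ofBijective σ hbij) hσ1 hσ2
  obtain ⟨y, rfl⟩ := hfix
  exact y.2

end DC83
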