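import Pool.Agent.H.MP_83e36b_nt.tw.SymD
import Pool.Agent.H.MP_83e36b_nt.tw.SymA
import Pool.Agent.H.MP_83e36b_nt.nr.SMain

/-! The invariants of a group with a normal subgroup which is a product of symmetric groups. -/

set_option autoImplicit false

open Polynomial

namespace DC83

open CM83 NR83

private theorem symB_map {E : Type} [Field E] {J I : Type} [Fintype J] [DecidableEq I]
    {p : J → I} {s : J → E} (f : E →+* E) (σ : Equiv.Perm J) (i i' : I)
    (hp : ∀ j, p (σ j) = i' ↔ p j = i) (hf : ∀ j, f (s j) = s (σ j)) (l : ℕ) :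
    f (esf p s i l) = esf p s i' l := by
  classical
  unfold esf
  rw [Finset.esymm_map_val, map_sum]
  have h1 : (Finset.univ.filter fun j => p j = i') =
      (Finset.univ.filter fun j => p j = i).map σ.toEmbedding := by
    ext j
    simp only [Finset.mem_filter, Finset.mem_univ, true_and, Finset.mem_map,
      Equiv.coe_toEmbedding]
    constructor
    · intro h
      refine ⟨σ.symm j, ?_, σ.apply_symm_apply j⟩
      rw [← hp, σ.apply_symm_apply]
      exact h
    · rintro ⟨j', h, rfl⟩
      exact (hp j').2 h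
  rw [h1, Finset.map_val, Multiset.map_map]
  have h2 : (s ∘ ⇑σ.toEmbedding) = fun j => s (σ j) := rfl
  rw [h2, Finset.esymm_map_val]
  refine Finset.sum_congr rfl fun t _ => ?_
  rw [map_prod]
  exact Finset.prod_congr rfl fun j _ => hf j

private theorem symB_card {J I : Type} [Fintype J] [DecidableEq I]
    {p : J → I} (σ : Equiv.Perm J) (i i' : I)
    (hp : ∀ j, p (σ j) = i' ↔ p j = i) :
    (Finset.univ.filter fun j => p j = i').card = (Finset.univ.filter fun j => p j = i).card := by
  classical
  have h1 : (Finset.univ.filter fun j => p j = i') =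
      (Finset.univ.filter fun j => p j = i).map σ.toEmbedding := by
    ext j
    simp only [Finset.mem_filter, Finset.mem_univ, true_and, Finset.mem_map,
      Equiv.coe_toEmbedding]
    constructor
    · intro h
      refine ⟨σ.symm j, ?_, σ.apply_symm_apply j⟩
      rw [← hp, σ.apply_symm_apply]
      exact h
    · rintro ⟨j', h, rfl⟩
      exact (hp j').2 h
  rw [h1, Finset.card_map]

/-- The fixed field of the restriction of an action to a stable subfield which contains all fixed
elements. -/
private theorem symB_core {k : Type} [Field k] [CharZero k] {L : Type} [Field L] [Algebra k L]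
    {G : Type} [Group G] [Finite G] (α : G →* (L ≃ₐ[k] L)) {E : Type} [Field E]
    [Algebra k E] [Algebra L E] [IsScalarTower k L E] (ε : G →* (E ≃ₐ[k] E))
    (hε : ∀ g a, ε g (algebraMap L E a) = algebraMap L E (α g a))
    {κ : Type} [Finite κ] (u : κ → E) (hu : AlgebraicIndependent L u)
    (hperm : ∀ g x, ε g (u x) ∈ Set.range u)
    (hker : ∀ g, (∀ a : L, α g a = a) → ∀ x, ε g (u x) = u x)
    (hfix : ∀ z : E, (∀ g, ε g z = z) → z ∈ IntermediateField.adjoin L (Set.range u)) :
    StablyIso k (fixF α) (fixF ε) := by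
  let E₁ : IntermediateField L E := IntermediateField.adjoin L (Set.range u)
  have hmem : ∀ (g : G) (x : E), x ∈ E₁ → ε g x ∈ E₁ := by
    intro g x hx
    induction hx using IntermediateField.adjoin_induction with
    | mem x hx =>
      obtain ⟨y, rfl⟩ := hx
      exact IntermediateField.subset_adjoin L (Set.range u) (hperm g y)
    | algebraMap a =>
      rw [hε]
      exact E₁.algebraMap_mem _
    | add x y _ _ h1 h2 =>
      rw [map_add]
      exact add_mem h1 h2
    | inv x _ h1 =>
      rw [map_inv₀]
      exact inv_mem h1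
    | mul x y _ _ h1 h2 =>
      rw [map_mul]
      exact mul_mem h1 h2
  let f : G → (E₁ →ₐ[k] E₁) := fun g =>
    { toFun := fun x => ⟨ε g x, hmem g x x.2⟩
      map_one' := Subtype.ext (map_one (ε g))
      map_mul' := fun a b => Subtype.ext (map_mul (ε g) (a : E) (b : E))
      map_zero' := Subtype.ext (map_zero (ε g))
      map_add' := fun a b => Subtype.ext (map_add (ε g) (a : E) (b : E))
      commutes' := fun a => Subtype.ext ((ε g).commutes a) }
  have hf : ∀ (g : G) (x : E₁), ((f g x : E₁) : E) = ε g (x : E) := fun g x => rfl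
  have hff : ∀ g h : G, (f g).comp (f h) = f (g * h) := by
    intro g h
    refine AlgHom.ext fun x => Subtype.ext ?_
    rw [AlgHom.comp_apply, hf, hf, hf, map_mul]
    rfl
  have hf1 : f 1 = AlgHom.id k E₁ := by
    refine AlgHom.ext fun x => Subtype.ext ?_
    rw [hf, map_one]
    rfl
  let ε₁ : G →* (E₁ ≃ₐ[k] E₁) :=
    { toFun := fun g => AlgEquiv.ofAlgHom (f g) (f g⁻¹)
        (by rw [hff, mul_inv_cancel, hf1]) (by rw [hff, inv_mul_cancel, hf1])
      map_one' := by
        refine AlgEquiv.ext fun x => ?_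
        show f 1 x = x
        rw [hf1]
        rfl
      map_mul' := fun g h => by
        refine AlgEquiv.ext fun x => ?_
        show f (g * h) x = f g (f h x)
        rw [← hff]
        rfl }
  have hε₁ : ∀ (g : G) (x : E₁), ((ε₁ g x : E₁) : E) = ε g (x : E) := fun g x => rfl
  let S : κ → E₁ := fun x => ⟨u x, IntermediateField.subset_adjoin L (Set.range u) ⟨x, rfl⟩⟩
  have hS : ∀ x, ((S x : E₁) : E) = u x := fun x => rfl
  have hcomp : (E₁.val : E₁ → E) ∘ S = u := rfl
  have hSalg : AlgebraicIndependent L S := by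
    refine AlgebraicIndependent.of_comp E₁.val ?_
    rw [hcomp]
    exact hu
  have hStop : IntermediateField.adjoin L (Set.range S) = ⊤ := by
    rw [eq_top_iff]
    intro x _
    have h4 : (IntermediateField.adjoin L (Set.range S)).map E₁.val = E₁ := by
      rw [IntermediateField.adjoin_map, ← Set.range_comp, hcomp]
    have h3 : (x : E) ∈ (IntermediateField.adjoin L (Set.range S)).map E₁.val := by
      rw [h4]
      exact x.2
    obtain ⟨z, hz, hzz⟩ := h3
    have h5 : z = x := Subtype.ext hzz
    rw [← h5]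
    exact hz
  have hαβ : ∀ g a, ε₁ g (algebraMap L E₁ a) = algebraMap L E₁ (α g a) := by
    intro g a
    apply Subtype.ext
    rw [hε₁]
    exact hε g a
  have h1 : StablyIso k (fixF α) (fixF ε₁) := by
    refine noname α ε₁ hαβ S hSalg hStop (fun g x => ?_) fun g hg x => ?_
    · obtain ⟨y, hy⟩ := hperm g x
      have h2 : ε₁ g (S x) = S y := by
        apply Subtype.ext
        rw [hε₁, hS, hS, hy]
      rw [h2]
      exact Submodule.subset_span ⟨y, rfl⟩
    · apply Subtype.ext
      rw [hε₁, hS]
      exact hker g hg x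
  refine h1.trans (StablyIso.of_equiv ?_)
  refine AlgEquiv.ofBijective (A₁ := fixF ε₁) (A₂ := fixF ε) (R := k)
    { toFun := fun x => ⟨((x : E₁) : E), (mem_fixF ε _).2 fun g => ?_⟩
      map_one' := rfl
      map_mul' := fun a b => rfl
      map_zero' := rfl
      map_add' := fun a b => rfl
      commutes' := fun a => rfl } ⟨?_, ?_⟩
  · rw [← hε₁, (mem_fixF ε₁ _).1 x.2 g]
  · intro x y hxy
    have h2 : ((x : E₁) : E) = ((y : E₁) : E) := congrArg (fun z : fixF ε => (z : E)) hxy
    exact Subtype.ext (Subtype.ext h2)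
  · intro z
    have hz := (mem_fixF ε _).1 z.2
    refine ⟨⟨⟨(z : E), hfix _ hz⟩, (mem_fixF ε₁ _).2 fun g => ?_⟩, rfl⟩
    apply Subtype.ext
    rw [hε₁]
    exact hz g

/-- Proof: let `E₁ = L(esf p s i l)`.  `ε g (esf p s i l) = esf p s (q g • i) l` (`hεs`, `h.equiv`), so
`ε` restricts to `ε₁ : G →* (E₁ ≃ₐ[k] E₁)`.  `noname` (nr/PT.lean) for the action `δ ∘ q` of `G` on `L`
and `ε₁`, `S` the family of the `esf` (`esf_ind`; `hker`: if `δ (q g) = 1` then `q g = 1`, so `g` acts
trivially on `I`): `StablyIso (fixF (δ ∘ q)) (fixF ε₁)`, and `fixF (δ ∘ q) = fixF δ` (`q` is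
surjective).  An element `z` fixed by `ε` is in `E₁` (`esf_gen`: for `σ` let `g` be as in `h.onto`; `τ`
and `ε g` agree on `L` and on the `s j`, so they are equal), so `fixF ε₁ ≅ fixF ε`
(`StablyIso.of_equiv`). -/
theorem sym_quot {k : Type} [Field k] [CharZero k] {L : Type} [Field L] [Algebra k L]
    {G A : Type} [Group G] [Finite G] [Group A] (q : G →* A) (hq : Function.Surjective q)
    {J I : Type} [Finite J] [Finite I] [MulAction G J] [MulAction A I] {p : J → I}
    (h : SymKer q p) (δ : A →* (L ≃ₐ[k] L)) (hδ : Function.Injective δ) {E : Type} [Field E]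
    [Algebra k E] [Algebra L E] [IsScalarTower k L E] (s : J → E)
    (hs : AlgebraicIndependent L s) (htop : IntermediateField.adjoin L (Set.range s) = ⊤)
    (ε : G →* (E ≃ₐ[k] E)) (hε : ∀ g a, ε g (algebraMap L E a) = algebraMap L E (δ (q g) a))
    (hεs : ∀ g j, ε g (s j) = s (g • j)) : StablyIso k (fixF δ) (fixF ε) := by
  classical
  have : CharZero L := charZero_of_injective_algebraMap (algebraMap k L).injective
  let _ : Fintype J := Fintype.ofFinite J
  rw [← fixF_comp δ q hq]
  have hp : ∀ (g : G) (i : I) (j : J), p (MulAction.toPerm g j) = q g • i ↔ p j = i := by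
    intro g i j
    rw [MulAction.toPerm_apply, h.equiv, smul_left_cancel_iff]
  have hesf : ∀ (g : G) (i : I) (l : ℕ), ε g (esf p s i l) = esf p s (q g • i) l := by
    intro g i l
    exact symB_map (f := ((ε g : E ≃ₐ[k] E) : E →+* E)) (MulAction.toPerm g) i (q g • i)
      (hp g i) (fun j => hεs g j) l
  have hfin : Finite (EIx p) := by
    refine Finite.of_injective
      (fun x : EIx p => ((x.1.1, ⟨x.1.2, lt_of_lt_of_le x.2 (Finset.card_filter_le _ _)⟩) :
        I × Fin (Finset.univ : Finset J).card)) ?_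
    rintro ⟨⟨i, l⟩, h1⟩ ⟨⟨i', l'⟩, h2⟩ h3
    simp only [Prod.mk.injEq, Fin.mk.injEq] at h3
    obtain ⟨rfl, rfl⟩ := h3
    rfl
  refine symB_core (δ.comp q) ε (fun g a => hε g a) (fun x : EIx p => esf p s x.1.1 x.1.2)
    (esf_ind p s hs htop) ?_ ?_ ?_
  · rintro g ⟨⟨i, l⟩, hl⟩
    refine ⟨⟨(q g • i, l), ?_⟩, ?_⟩
    · show l < _
      rw [symB_card (MulAction.toPerm g) i (q g • i) (hp g i)]
      exact hl
    · exact (hesf g i l).symm
  · rintro g hg ⟨⟨i, l⟩, hl⟩
    have h1 : q g = 1 := by
      apply hδ
      rw [map_one]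
      exact AlgEquiv.ext hg
    show ε g (esf p s i l) = esf p s i l
    rw [hesf, h1, one_smul]
  · intro z hz
    refine esf_gen p s hs htop z fun τ σ hσ hτ => ?_
    obtain ⟨g, hg1, hg2⟩ := h.onto σ hσ
    have h1 : ∀ x : E, ε g x = τ x := by
      intro x
      have hx : x ∈ IntermediateField.adjoin L (Set.range s) := by
        rw [htop]
        exact IntermediateField.mem_top
      induction hx using IntermediateField.adjoin_induction with
      | mem x hx =>
        obtain ⟨j, rfl⟩ := hx
        rw [hεs, hτ, hg2]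
      | algebraMap a => rw [hε, hg1, map_one, AlgEquiv.one_apply, AlgEquiv.commutes]
      | add x y _ _ h1 h2 => rw [map_add, map_add, h1, h2]
      | inv x _ h1 => rw [map_inv₀, map_inv₀, h1]
      | mul x y _ _ h1 h2 => rw [map_mul, map_mul, h1, h2]
    rw [← h1]
    exact hz g

end DC83
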